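import Pool.Agent.Q4.Frat.Sub

/-!
# Facts on the generalized quaternion group of order `24`
-/

namespace Q4.Frat

/-- The central subgroup of order two. -/
abbrev ZZ : Subgroup CC := Subgroup.zpowers zz

theorem inv_sup {K K' : Subgroup CC} (h : K < K') (h4 : 4 ∣ Nat.card K') :
    K ⊔ ZZ ≠ K' := by
  intro he
  by_cases hz : zz ∈ K
  · refine h.ne ?_
    rw [← he, eq_comm, sup_eq_left, Subgroup.zpowers_le]
    exact hz
  · have hodd : ¬ 2 ∣ Nat.card K := fun h2 => hz (zz_mem_of_even h2)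
    have h1 : Nat.card K ∣ Nat.card K' := Subgroup.card_dvd_of_le h.le
    have hcop : Nat.Coprime 4 (Nat.card K) := by
      rw [show 4 = 2 ^ 2 from rfl]
      exact Nat.Coprime.pow_left 2 ((Nat.Prime.coprime_iff_not_dvd Nat.prime_two).2 hodd)
    have h2 : 4 * Nat.card K ∣ Nat.card K' := Nat.Coprime.mul_dvd_of_dvd_of_dvd hcop h4 h1
    have hpos : 0 < Nat.card K' := Nat.card_pos
    have h3 := Nat.le_of_dvd hpos h2
    have hposK : 0 < Nat.card K := Nat.card_pos
    have h5 : Nat.card K' ≤ Nat.card K * 2 := by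
      have hf : Function.Surjective (fun p : K × Bool =>
          (⟨(p.1 : CC) * (if p.2 then zz else 1), by
            rw [← he]
            refine Subgroup.mul_mem_sup p.1.2 ?_
            split_ifs
            · exact Subgroup.mem_zpowers _
            · exact Subgroup.one_mem _⟩ : K')) := by
        rintro ⟨x, hx⟩
        rw [← he, Subgroup.mem_sup_of_normal_right] at hx
        obtain ⟨y, hy, w, hw, rfl⟩ := hx
        rcases zpowers_zz.1 hw with rfl | rfl
        · exact ⟨(⟨y, hy⟩, false), Subtype.ext rfl⟩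
        · exact ⟨(⟨y, hy⟩, true), Subtype.ext rfl⟩
      have h6 := Nat.card_le_card_of_surjective _ hf
      rw [Nat.card_prod] at h6
      simpa using h6
    omega

/-- A subgroup given by a test. -/
def sg (f : CC → Bool) (h1 : f 1 = true) (hm : ∀ x y, f x = true → f y = true → f (x * y) = true)
    (hi : ∀ x, f x = true → f x⁻¹ = true) : Subgroup CC where
  carrier := {x | f x = true}
  one_mem' := h1
  mul_mem' := fun hx hy => hm _ _ hx hy
  inv_mem' := fun hx => hi _ hx

/-- The test for `N`. -/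
def fN : CC → Bool
  | .a i => i.val % 2 == 0
  | .xa _ => false

/-- The test for `T`. -/
def fT : CC → Bool
  | .a _ => true
  | .xa _ => false

/-- The test for `R₀`. -/
def fR : CC → Bool
  | .a i => i.val % 3 == 0
  | .xa _ => false

/-- The test for `R₁`. -/
def fQ : CC → Bool
  | .a i => i.val % 6 == 0
  | .xa i => i.val % 6 == 0

/-- The test for the elements with an even exponent. -/
def fE : CC → Bool
  | .a i => i.val % 2 == 0
  | .xa i => i.val % 2 == 0

/-- The subgroup of order `6`. -/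
def NN : Subgroup CC := sg fN (by decide) (by decide) (by decide)

/-- The subgroup of order `12`. -/
def TT : Subgroup CC := sg fT (by decide) (by decide) (by decide)

/-- A normal subgroup of order `4`. -/
def R0 : Subgroup CC := sg fR (by decide) (by decide) (by decide)

/-- Another subgroup of order `4`. -/
def R1 : Subgroup CC := sg fQ (by decide) (by decide) (by decide)

/-- A subgroup of order `12`. -/
def EE : Subgroup CC := sg fE (by decide) (by decide) (by decide)

theorem mem_NN {c : CC} : c ∈ NN ↔ fN c = true := Iff.rfl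
theorem mem_TT {c : CC} : c ∈ TT ↔ fT c = true := Iff.rfl
theorem mem_R0 {c : CC} : c ∈ R0 ↔ fR c = true := Iff.rfl
theorem mem_R1 {c : CC} : c ∈ R1 ↔ fQ c = true := Iff.rfl
theorem mem_EE {c : CC} : c ∈ EE ↔ fE c = true := Iff.rfl

theorem conj_N : ∀ g n : CC, fN n = true → fN (g * n * g⁻¹) = true := by decide

theorem conj_R : ∀ g n : CC, fR n = true → fR (g * n * g⁻¹) = true := by decide

instance : NN.Normal := ⟨fun n hn g => conj_N g n hn⟩

instance : R0.Normal := ⟨fun n hn g => conj_R g n hn⟩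

/-- The generator of order `12`. -/
def aa : CC := .a 1

/-- Odd elements and elements with exponent not divisible by three generate the cyclic group. -/
theorem gen_aa : ∀ g h : CC, fT g = true → fT h = true → fN g = false → fR h = false →
    h ^ 4 * g ^ 3 = aa ∨ h ^ 4 * g ^ 9 = aa ∨ h ^ 8 * g ^ 3 = aa ∨ h ^ 8 * g ^ 9 = aa := by
  decide

theorem all_of : ∀ x g : CC, fT x = false → (∃ k : Fin 12, g = aa ^ (k : ℕ)) ∨
    (∃ k : Fin 12, g = x * aa ^ (k : ℕ)) := by
  decide

theorem top_of {L : Subgroup CC} (h1 : aa ∈ L) {x : CC} (hx : x ∈ L) (h2 : fT x = false) :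
    L = ⊤ := by
  refine (Subgroup.eq_top_iff' L).2 fun g => ?_
  rcases all_of x g h2 with ⟨k, rfl⟩ | ⟨k, rfl⟩
  · exact L.pow_mem h1 _
  · exact L.mul_mem hx (L.pow_mem h1 _)

theorem aa_of {L : Subgroup CC} {g h : CC} (hg : g ∈ L) (hh : h ∈ L) (h1 : fT g = true)
    (h2 : fT h = true) (h3 : fN g = false) (h4 : fR h = false) : aa ∈ L := by
  rcases gen_aa g h h1 h2 h3 h4 with h | h | h | h <;> rw [← h]
  · exact L.mul_mem (L.pow_mem hh _) (L.pow_mem hg _)
  · exact L.mul_mem (L.pow_mem hh _) (L.pow_mem hg _)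
  · exact L.mul_mem (L.pow_mem hh _) (L.pow_mem hg _)
  · exact L.mul_mem (L.pow_mem hh _) (L.pow_mem hg _)

theorem par1 : ∀ y n : CC, fN n = true → y * n = aa → fT y = true ∧ fN y = false := by decide

theorem par2 : ∀ y n : CC, fN n = true → fT (y * n) = false → fT y = false := by decide

theorem par3 : ∀ y n : CC, fR n = true → fT (y * n) = true → fT y = true := by decide

theorem par4 : ∀ y : CC, fT y = true → fR y = false → fN y = true ∨ fN y = false := by decide

theorem c1 {L : Subgroup CC} (hL : L ≠ ⊤) : L ⊔ NN ≠ ⊤ ∨ L ⊓ TT ≤ R0 := by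
  by_contra hcon
  push Not at hcon
  obtain ⟨h1, h2⟩ := hcon
  obtain ⟨h, hh, hhR⟩ := SetLike.not_le_iff_exists.1 h2
  have h3 : aa ∈ L ⊔ NN := by rw [h1]; exact Subgroup.mem_top _
  obtain ⟨y, hy, n, hn, hyn⟩ := Subgroup.mem_sup_of_normal_right.1 h3
  have h4 := par1 y n hn hyn
  have h5 : aa ∈ L := aa_of hy hh.1 h4.1 hh.2 h4.2 (Bool.eq_false_iff.2 hhR)
  have h6 : (QuaternionGroup.xa 0 : CC) ∈ L ⊔ NN := by rw [h1]; exact Subgroup.mem_top _
  obtain ⟨x, hx, m, hm, hxm⟩ := Subgroup.mem_sup_of_normal_right.1 h6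
  refine hL (top_of h5 hx (par2 x m hm ?_))
  rw [hxm]
  rfl

theorem c2 {L : Subgroup CC} (h0 : R0 ≤ L) (h1 : L ⊔ NN ≠ ⊤) (h2 : L ⊓ TT ≤ R0) : L ≤ R0 := by
  intro g hg
  by_cases h3 : fT g = true
  · exact h2 ⟨hg, h3⟩
  · exfalso
    refine h1 (top_of (aa_of (g := .a 3) (h := .a 2) ?_ ?_ rfl rfl (by decide) (by decide))
      ((le_sup_left : L ≤ L ⊔ NN) hg) (Bool.eq_false_iff.2 h3))
    · exact (le_sup_left : L ≤ L ⊔ NN) (h0 (show fR (.a 3) = true by decide))
    · exact (le_sup_right : NN ≤ L ⊔ NN) (show fN (.a 2) = true by decide)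

theorem gen_R : ∀ g h : CC, fR g = true → g ≠ 1 → g ≠ zz → fR h = true →
    ∃ k : Fin 4, h = g ^ (k : ℕ) := by decide

theorem c3 {L : Subgroup CC} (h : L < R0) : L ≤ ZZ := by
  intro g hg
  rw [zpowers_zz]
  by_contra hcon
  push Not at hcon
  refine h.not_ge fun x hx => ?_
  obtain ⟨k, rfl⟩ := gen_R g x (h.le hg) hcon.1 hcon.2 hx
  exact L.pow_mem hg _

theorem Z_le {K : Subgroup CC} (h : zz ∈ K) : ZZ ≤ K := (Subgroup.zpowers_le).2 h

theorem Z_N : ZZ ≤ NN := Z_le (show fN zz = true by decide)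

theorem Z_R0 : ZZ < R0 := by
  refine lt_of_le_of_ne (Z_le (show fR zz = true by decide)) fun h => ?_
  have h1 : (QuaternionGroup.a 3 : CC) ∈ ZZ := by
    rw [h]
    exact (show fR (.a 3) = true by decide)
  rw [zpowers_zz] at h1
  revert h1
  decide

theorem Z_R1 : ZZ < R1 := by
  refine lt_of_le_of_ne (Z_le (show fQ zz = true by decide)) fun h => ?_
  have h1 : (QuaternionGroup.xa 0 : CC) ∈ ZZ := by
    rw [h]
    exact (show fQ (.xa 0) = true by decide)
  rw [zpowers_zz] at h1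
  revert h1
  decide

theorem R1_E : ∀ g : CC, fQ g = true → fE g = true := by decide
theorem N_E : ∀ g : CC, fN g = true → fE g = true := by decide
theorem R1_T : ∀ g : CC, fQ g = true → fT g = true → fR g = true := by decide

theorem R1_N : R1 ⊔ NN ≠ ⊤ := by
  intro h
  have h1 : aa ∈ R1 ⊔ NN := by rw [h]; exact Subgroup.mem_top _
  have h2 : R1 ⊔ NN ≤ EE := sup_le (fun g hg => R1_E g hg) (fun g hg => N_E g hg)
  exact absurd (h2 h1) (show ¬ fE aa = true by decide)

theorem R1_inf : R1 ⊓ TT ≤ R0 := fun g hg => R1_T g hg.1 hg.2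

theorem R0_R1 : ¬ R0 ≤ R1 := fun h =>
  absurd (h (show fR (.a 3) = true by decide)) (show ¬ fQ (.a 3) = true by decide)

theorem Z_sup_N : ZZ ⊔ NN ≠ ⊤ := by
  rw [sup_eq_right.2 Z_N]
  intro h
  have h1 : aa ∈ NN := by rw [h]; exact Subgroup.mem_top _
  exact absurd h1 (show ¬ fN aa = true by decide)

theorem Z_inf_T : ZZ ⊓ TT ≤ R0 := inf_le_left.trans Z_R0.le

theorem c6 {L : Subgroup CC} (h : L ⊓ TT ≤ R0) : (L ⊔ R0) ⊓ TT ≤ R0 := by
  rintro g ⟨hg, hT⟩
  obtain ⟨y, hy, n, hn, rfl⟩ := Subgroup.mem_sup_of_normal_right.1 hg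
  exact R0.mul_mem (h ⟨hy, par3 y n hn hT⟩) hn

theorem R0_N : R0 ⊔ NN ≠ ⊤ := by
  intro h
  have h2 : R0 ⊔ NN ≤ TT := sup_le (fun g hg => (show ∀ g : CC, fR g = true → fT g = true by
    decide) g hg) (fun g hg => (show ∀ g : CC, fN g = true → fT g = true by decide) g hg)
  have h1 : (QuaternionGroup.xa 0 : CC) ∈ R0 ⊔ NN := by rw [h]; exact Subgroup.mem_top _
  exact absurd (h2 h1) (show ¬ fT (.xa 0) = true by decide)

theorem R0_top : R0 ≠ ⊤ := fun h => R0_N (by rw [h]; exact top_sup_eq _)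

theorem N_not_Z : ¬ NN ≤ ZZ := by
  intro h
  have h1 := h (show fN (.a 2) = true by decide)
  rw [zpowers_zz] at h1
  revert h1
  decide

theorem ZZ_top : ZZ ≠ ⊤ := fun h => N_not_Z (by rw [h]; exact le_top)

theorem ZZ_bot : ZZ ≠ ⊥ := by
  intro h
  exact zz_ne (Subgroup.mem_bot.1 (h ▸ Subgroup.mem_zpowers zz))

end Q4.Frat
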