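import Pool.Agent.Q4.Frat.Ccf

/-!
# Complements and preimages
-/

namespace Q4.Frat

/-- The preimage of a subgroup of the quaternion group. -/
def up (K : Subgroup CC) : Subgroup GG := K.comap pr

theorem mem_up {K : Subgroup CC} {g : GG} : g ∈ up K ↔ pr g ∈ K := Iff.rfl

theorem ww_up (K : Subgroup CC) : ww (up K) = ⊤ := by
  rw [eq_top_iff]
  intro v _
  rw [mem_ww, mem_up, pr_tra]
  exact K.one_mem

theorem cc_up (K : Subgroup CC) : cc (up K) = K := by
  refine le_antisymm ?_ fun c hc => ?_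
  · intro c hc
    obtain ⟨g, hg, rfl⟩ := mem_cc.1 hc
    exact hg
  · exact mem_cc.2 ⟨emb c, hc, pr_emb c⟩

theorem le_up (H : Subgroup GG) : H ≤ up (cc H) := fun _ hg => pr_mem hg

theorem up_mono {K K' : Subgroup CC} (h : K ≤ K') : up K ≤ up K' := fun _ hg => h hg

theorem eq_up {H : Subgroup GG} (h : ww H = ⊤) : H = up (cc H) :=
  eq_of (le_up H) (by rw [h]; exact le_top) (by rw [cc_up])

theorem cc_lt {z H : Subgroup GG} (h : z < H) (hw : ww H ≤ ww z) : cc z < cc H :=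
  lt_of_le_of_ne (cc_mono h.le) fun h1 => h.ne (eq_of h.le hw h1.ge)

theorem up_lt {H : Subgroup GG} {K : Subgroup CC} (hH : ww H = ⊤) (hK : K ≤ cc H)
    (hne : K ≠ cc H) : up K < H := by
  refine lt_of_le_of_ne ?_ fun h => hne ?_
  · rw [eq_up hH]
    exact up_mono hK
  · rw [← h, cc_up]

/-- Lifts of the central involution. -/
theorem inter {M M' : Subgroup GG} (h : ww M = ⊥) (h' : ww M' = ⊥) {m m' x : GG} (hm : m ∈ M)
    (hm' : m' ∈ M') (h1 : pr m = zz) (h2 : pr m' = zz) (hx : x ∈ M) (hx' : x ∈ M') (hx1 : x ≠ 1) :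
    m = m' := by
  have key : ∀ {N : Subgroup GG} {n : GG}, ww N = ⊥ → n ∈ N → pr n = zz → x ∈ N →
      x * n = n * x := by
    intro N n hN hn hn1 hxN
    have h3 : n⁻¹ * x * n * x⁻¹ = 1 := by
      refine eq_one_of hN (N.mul_mem (N.mul_mem (N.mul_mem (N.inv_mem hn) hxN) hn)
        (N.inv_mem hxN)) ?_
      rw [map_mul, map_mul, map_mul, map_inv, map_inv, hn1, mul_assoc zz⁻¹, zz_central]
      group
    calc x * n = n * (n⁻¹ * x * n * x⁻¹) * x := by group
      _ = n * x := by rw [h3, mul_one]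
  have k1 := key h hm h1 hx
  have k2 := key h' hm' h2 hx'
  have hp : pr x ≠ 1 := fun hp => hx1 (eq_one_of h hx hp)
  have h4 : pr (m' * m⁻¹) = 1 := by rw [map_mul, map_inv, h1, h2, mul_inv_cancel]
  have h5 := eq_tra h4
  have h6 : x * tra (m' * m⁻¹).v = tra (m' * m⁻¹).v * x := by
    rw [← h5]
    calc x * (m' * m⁻¹) = (x * m') * m⁻¹ := by group
      _ = (m' * x) * m⁻¹ := by rw [k2]
      _ = m' * m⁻¹ * (m * x) * m⁻¹ := by group
      _ = m' * m⁻¹ * (x * m) * m⁻¹ := by rw [k1]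
      _ = m' * m⁻¹ * x := by group
  have h7 := frob hp h6
  rw [h7, tra_zero] at h5
  exact (mul_inv_eq_one.1 h5).symm

/-- The property of being a complement. -/
def Cp (M : Subgroup GG) : Prop := ww M = ⊥ ∧ cc M = ⊤

theorem Cp.lt {M L : Subgroup GG} (h : L ≤ M) (hM : Cp M) : L < M ↔ cc L ≠ ⊤ := by
  constructor
  · intro hlt he
    refine hlt.ne (eq_of h ?_ (by rw [he]; exact le_top))
    rw [hM.1]
    exact bot_le
  · intro hne
    refine lt_of_le_of_ne h fun he => hne ?_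
    rw [he]
    exact hM.2

/-- Two different complements meet trivially. -/
theorem Cp.inf {M M' : Subgroup GG} (hM : Cp M) (hM' : Cp M') (hne : M ≠ M') : M ⊓ M' = ⊥ := by
  rw [Subgroup.eq_bot_iff_forall]
  rintro x ⟨hx, hx'⟩
  by_contra hx1
  apply hne
  have hle : ∀ {N N' : Subgroup GG}, Cp N → Cp N' → x ∈ N → x ∈ N' → N ≤ N' := by
    intro N N' hN hN' hxN hxN' g hg
    obtain ⟨g', hg', hgg⟩ := mem_cc.1 (show pr g ∈ cc N' by rw [hN'.2]; exact Subgroup.mem_top _)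
    obtain ⟨m, hm, hm1⟩ := mem_cc.1 (show zz ∈ cc N by rw [hN.2]; exact Subgroup.mem_top _)
    obtain ⟨m', hm', hm1'⟩ := mem_cc.1 (show zz ∈ cc N' by rw [hN'.2]; exact Subgroup.mem_top _)
    have h1 : m = m' := inter hN.1 hN'.1 hm hm' hm1 hm1' hxN hxN' hx1
    subst h1
    -- `g` and `g'` both commute with `m`
    have hcom : ∀ {K : Subgroup GG} {k : GG}, ww K = ⊥ → k ∈ K → m ∈ K → m * k = k * m := by
      intro K k hK hk hmK
      have h3 : k⁻¹ * m * k * m⁻¹ = 1 := by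
        refine eq_one_of hK (K.mul_mem (K.mul_mem (K.mul_mem (K.inv_mem hk) hmK) hk)
          (K.inv_mem hmK)) ?_
        rw [map_mul, map_mul, map_mul, map_inv, map_inv, hm1, mul_assoc _ zz, ← zz_central,
          ← mul_assoc, inv_mul_cancel, one_mul, mul_inv_cancel]
      calc m * k = k * (k⁻¹ * m * k * m⁻¹) * m := by group
        _ = k * m := by rw [h3, mul_one]
    have k1 := hcom hN.1 hg hm
    have k2 := hcom hN'.1 hg' hm'
    have h4 : pr (g * g'⁻¹) = 1 := by rw [map_mul, map_inv, hgg, mul_inv_cancel]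
    have h5 := eq_tra h4
    have h6 : m * tra (g * g'⁻¹).v = tra (g * g'⁻¹).v * m := by
      rw [← h5]
      calc m * (g * g'⁻¹) = (m * g) * g'⁻¹ := by group
        _ = g * m * g'⁻¹ := by rw [k1]
        _ = g * g'⁻¹ * (g' * m) * g'⁻¹ := by group
        _ = g * g'⁻¹ * (m * g') * g'⁻¹ := by rw [k2]
        _ = g * g'⁻¹ * m := by group
    have h7 := frob (by rw [hm1]; exact zz_ne) h6
    rw [h7, tra_zero] at h5
    rw [mul_inv_eq_one.1 h5]
    exact hg'
  exact le_antisymm (hle hM hM' hx hx') (hle hM' hM hx' hx)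

/-- The standard complement. -/
def C0 : Subgroup GG := (⊤ : Subgroup CC).map emb

/-- The copy of a subgroup of the quaternion group in the standard complement. -/
def em (K : Subgroup CC) : Subgroup GG := K.map emb

theorem mem_em {K : Subgroup CC} {g : GG} : g ∈ em K ↔ ∃ c ∈ K, emb c = g := Subgroup.mem_map

theorem cc_em (K : Subgroup CC) : cc (em K) = K := by
  refine le_antisymm ?_ fun c hc => mem_cc.2 ⟨emb c, mem_em.2 ⟨c, hc, rfl⟩, rfl⟩
  intro c hc
  obtain ⟨g, hg, rfl⟩ := mem_cc.1 hc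
  obtain ⟨d, hd, rfl⟩ := mem_em.1 hg
  exact hd

theorem em_mono {K K' : Subgroup CC} (h : K ≤ K') : em K ≤ em K' := Subgroup.map_mono h

theorem em_le {K K' : Subgroup CC} : em K ≤ em K' ↔ K ≤ K' := by
  constructor
  · intro h
    have := cc_mono h
    rwa [cc_em, cc_em] at this
  · exact em_mono

theorem em_lt {K K' : Subgroup CC} : em K < em K' ↔ K < K' := by
  rw [lt_iff_le_not_ge, lt_iff_le_not_ge, em_le, em_le]

theorem em_top : em ⊤ = C0 := rfl

theorem em_le_C0 (K : Subgroup CC) : em K ≤ C0 := em_mono le_top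

theorem ww_C0 : ww C0 = ⊥ := by
  rw [eq_bot_iff]
  intro v hv
  obtain ⟨d, _, hd⟩ := mem_em.1 (show tra v ∈ em ⊤ from hv)
  exact (Submodule.mem_bot _).2 (congrArg GG.v hd).symm

theorem cp_C0 : Cp C0 := ⟨ww_C0, cc_em ⊤⟩

theorem ww_em (K : Subgroup CC) : ww (em K) = ⊥ := by
  have h := ww_mono (em_le_C0 K)
  rw [ww_C0] at h
  exact le_bot_iff.1 h

theorem eq_em {L : Subgroup GG} (h : L ≤ C0) : L = em (cc L) := by
  refine le_antisymm ?_ ?_
  · intro g hg
    obtain ⟨d, _, hd⟩ := mem_em.1 (show g ∈ em ⊤ from h hg)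
    refine mem_em.2 ⟨d, mem_cc.2 ⟨g, hg, ?_⟩, hd⟩
    rw [← hd, pr_emb]
  · intro x hx
    obtain ⟨d, hd, rfl⟩ := mem_em.1 hx
    obtain ⟨g, hg, rfl⟩ := mem_cc.1 hd
    obtain ⟨e, _, he⟩ := mem_em.1 (show g ∈ em ⊤ from h hg)
    have h1 : emb (pr g) = g := by rw [← he, pr_emb]
    rw [h1]
    exact hg

theorem cc_sup (L L' : Subgroup GG) : cc (L ⊔ L') = cc L ⊔ cc L' := Subgroup.map_sup _ _ _

end Q4.Frat
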