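import Mathlib

/-!
# Simple modules over incidence algebras, global dimension, Frattini subgroups
-/

open CategoryTheory

namespace Q4.Frat

section

variable {P : Type} [PartialOrder P] [LocallyFiniteOrder P] [DecidableEq P]

/-- The ring homomorphism sending an element `f` of the incidence algebra to `f x x`. -/
def diag (x : P) : IncidenceAlgebra ℚ P →+* ℚ where
  toFun f := f x x
  map_one' := by rw [IncidenceAlgebra.one_apply, if_pos rfl]
  map_mul' f g := by rw [IncidenceAlgebra.mul_apply, Finset.Icc_self, Finset.sum_singleton]
  map_zero' := IncidenceAlgebra.zero_apply x x
  map_add' f g := IncidenceAlgebra.add_apply f g x x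

/-- The simple module `S_x` of the incidence algebra over `ℚ` of a locally finite poset: it is
one-dimensional, and `f` acts by the multiplication by `f x x`. -/
def Simp (_x : P) : Type := ℚ

instance (x : P) : AddCommGroup (Simp x) := inferInstanceAs (AddCommGroup ℚ)

instance (x : P) : Nontrivial (Simp x) := inferInstanceAs (Nontrivial ℚ)

instance (x : P) : Module (IncidenceAlgebra ℚ P) (Simp x) :=
  Module.compHom ℚ (diag x)

end

/-- The global dimension of an abelian category: the supremum of the projective dimensions of its
objects. -/
noncomputable def gldim (C : Type 1) [Category.{0} C] [Abelian C] : WithBot ℕ∞ :=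
  ⨆ X : C, projectiveDimension X

variable (G : Type) [Group G] [Finite G]

noncomputable instance instFintypeSub : Fintype (Subgroup G) := Fintype.ofFinite _

open Classical in
noncomputable instance instLocSub : LocallyFiniteOrder (Subgroup G) :=
  Fintype.toLocallyFiniteOrder

noncomputable instance instDecSub : DecidableEq (Subgroup G) := Classical.decEq _

/-- The incidence algebra over `ℚ` of the poset of all subgroups of the finite group `G`. -/
abbrev IA : Type := IncidenceAlgebra ℚ (Subgroup G)

variable {G}

/-- The simple module `S_H` of the incidence algebra of the poset of all subgroups of `G`. -/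
noncomputable abbrev simple (H : Subgroup G) : ModuleCat.{0} (IA G) :=
  ModuleCat.of (IA G) (Simp H)

/-- The Frattini subgroup `Φ H`, the intersection of the maximal subgroups of `H`, as a subgroup of
`G`. -/
def Phi (H : Subgroup G) : Subgroup G := (frattini H).map H.subtype

/-- `Ext^n(S_H, S_K)` is not zero, over the incidence algebra of the poset of all subgroups. -/
def ExtNonzero (n : ℕ) (H K : Subgroup G) : Prop :=
  Nontrivial (Abelian.Ext (simple H) (simple K) n)

end Q4.Frat
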