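import Pool.Agent.Q4.Frat.Lat

/-!
# The Frobenius group `11 ^ 2 : Q_24`
-/

namespace Q4.Frat

open Matrix

/-- The generalized quaternion group of order `24`. -/
abbrev CC : Type := QuaternionGroup 6

/-- The plane over the field with eleven elements. -/
abbrev VV : Type := Fin 2 → ZMod 11

instance : Fact (Nat.Prime 11) := ⟨by norm_num⟩

/-- A matrix of order `12`. -/
def mR : Matrix (Fin 2) (Fin 2) (ZMod 11) := !![8, -5; 5, 8]

/-- A matrix of order `4`. -/
def mB : Matrix (Fin 2) (Fin 2) (ZMod 11) := !![1, 3; 3, -1]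

/-- The representation. -/
def rho : CC → Matrix (Fin 2) (Fin 2) (ZMod 11)
  | .a i => mR ^ i.val
  | .xa i => mB * mR ^ i.val

theorem mR6 : mR ^ 6 = -1 := by decide

theorem mR12 : mR ^ 12 = 1 := by
  rw [show 12 = 6 * 2 from rfl, pow_mul, mR6]
  decide

theorem mB2 : mB * mB = -1 := by decide

theorem mRBR : mR * mB * mR = mB := by decide

theorem mR_mod (m : ℕ) : mR ^ (m % 12) = mR ^ m := by
  conv_rhs => rw [← Nat.mod_add_div m 12, pow_add, pow_mul, mR12, one_pow, mul_one]

theorem mRBR_pow (m : ℕ) : mR ^ m * mB * mR ^ m = mB := by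
  induction m with
  | zero => rw [pow_zero, one_mul, mul_one]
  | succ m ih =>
    calc mR ^ (m + 1) * mB * mR ^ (m + 1) = mR ^ m * mR * mB * (mR * mR ^ m) := by
          rw [← pow_succ, ← pow_succ']
      _ = mR ^ m * (mR * mB * mR) * mR ^ m := by
          simp only [mul_assoc]
      _ = mB := by rw [mRBR, ih]

theorem rho_one : rho 1 = 1 := by
  change mR ^ (0 : ZMod (2 * 6)).val = 1
  rw [ZMod.val_zero, pow_zero]

theorem pow_val_add (i j : ZMod (2 * 6)) : mR ^ (i + j).val = mR ^ i.val * mR ^ j.val := by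
  rw [ZMod.val_add]
  exact (mR_mod _).trans (pow_add _ _ _)

theorem rho_mul (c d : CC) : rho (c * d) = rho c * rho d := by
  have key : ∀ i j : ZMod (2 * 6), mR ^ i.val * mB * mR ^ j.val = mB * mR ^ (j - i).val := by
    intro i j
    have h1 : mR ^ j.val = mR ^ i.val * mR ^ (j - i).val := by
      rw [← pow_val_add, add_sub_cancel]
    rw [h1, ← mul_assoc, mRBR_pow]
  rcases c with i | i <;> rcases d with j | j
  · rw [QuaternionGroup.a_mul_a]
    exact pow_val_add i j
  · rw [QuaternionGroup.a_mul_xa]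
    change mB * mR ^ (j - i).val = mR ^ i.val * (mB * mR ^ j.val)
    rw [← mul_assoc, key]
  · rw [QuaternionGroup.xa_mul_a]
    change mB * mR ^ (i + j).val = mB * mR ^ i.val * mR ^ j.val
    rw [pow_val_add, mul_assoc]
  · rw [QuaternionGroup.xa_mul_xa]
    change mR ^ ((6 : ℕ) + j - i : ZMod (2 * 6)).val = mB * mR ^ i.val * (mB * mR ^ j.val)
    have h1 : mB * mR ^ i.val * (mB * mR ^ j.val) = mB * (mR ^ i.val * mB * mR ^ j.val) := by
      simp only [mul_assoc]
    rw [h1, key, ← mul_assoc, mB2, ← mR6, add_sub_assoc, pow_val_add]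
    rfl

theorem rho_det (c : CC) (hc : c ≠ 1) : (rho c - 1).det ≠ 0 := by
  revert c
  simp only [Matrix.det_fin_two]
  decide

/-- The action. -/
def act (c : CC) (v : VV) : VV := rho c *ᵥ v

theorem act_one (v : VV) : act 1 v = v := by rw [act, rho_one, one_mulVec]

theorem act_mul (c d : CC) (v : VV) : act (c * d) v = act c (act d v) := by
  rw [act, act, act, rho_mul, mulVec_mulVec]

theorem act_add (c : CC) (v w : VV) : act c (v + w) = act c v + act c w := mulVec_add _ _ _

theorem act_smul (c : CC) (k : ZMod 11) (v : VV) : act c (k • v) = k • act c v :=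
  mulVec_smul _ _ _

theorem act_zero (c : CC) : act c 0 = 0 := mulVec_zero _

theorem act_fix {c : CC} {v : VV} (h : act c v = v) (hc : c ≠ 1) : v = 0 := by
  have h1 : (rho c - 1) *ᵥ v = 0 := by
    rw [sub_mulVec, one_mulVec]
    exact sub_eq_zero.2 h
  exact eq_zero_of_mulVec_eq_zero (rho_det c hc) h1

/-- The group. -/
@[ext] structure GG where
  /-- the quaternion part -/
  c : CC
  /-- the translation part -/
  v : VV

instance : Mul GG := ⟨fun g h => ⟨g.c * h.c, g.v + act g.c h.v⟩⟩
instance : One GG := ⟨⟨1, 0⟩⟩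
instance : Inv GG := ⟨fun g => ⟨g.c⁻¹, -act g.c⁻¹ g.v⟩⟩

theorem mul_c (g h : GG) : (g * h).c = g.c * h.c := rfl
theorem mul_v (g h : GG) : (g * h).v = g.v + act g.c h.v := rfl
theorem one_c : (1 : GG).c = 1 := rfl
theorem one_v : (1 : GG).v = 0 := rfl
theorem inv_c (g : GG) : (g⁻¹).c = g.c⁻¹ := rfl
theorem inv_v (g : GG) : (g⁻¹).v = -act g.c⁻¹ g.v := rfl

instance : Group GG := Group.ofLeftAxioms
  (fun a b c => GG.ext (mul_assoc _ _ _) (by
    rw [mul_v, mul_v, mul_v, mul_v, mul_c, act_mul, act_add, add_assoc]))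
  (fun a => GG.ext (one_mul _) (by
    rw [mul_v, one_v, one_c, act_one, zero_add]))
  (fun a => GG.ext (inv_mul_cancel _) (by
    rw [mul_v, inv_v, inv_c, neg_add_cancel, one_v]))

/-- As a set it is a product. -/
def equivProd : GG ≃ CC × VV where
  toFun g := (g.c, g.v)
  invFun p := ⟨p.1, p.2⟩
  left_inv _ := rfl
  right_inv _ := rfl

instance : Finite GG := Finite.of_equiv _ equivProd.symm

/-- The projection. -/
def pr : GG →* CC where
  toFun g := g.c
  map_one' := rfl
  map_mul' _ _ := rfl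

/-- The complement. -/
def emb : CC →* GG where
  toFun c := ⟨c, 0⟩
  map_one' := rfl
  map_mul' c d := GG.ext rfl (by rw [mul_v, act_zero, add_zero])

theorem pr_emb (c : CC) : pr (emb c) = c := rfl

/-- The translations. -/
def tra (v : VV) : GG := ⟨1, v⟩

theorem tra_add (v w : VV) : tra (v + w) = tra v * tra w :=
  GG.ext (one_mul _).symm (by rw [mul_v]; change _ = v + act 1 w; rw [act_one]; rfl)

theorem tra_zero : tra 0 = 1 := rfl

theorem tra_neg (v : VV) : tra (-v) = (tra v)⁻¹ := by
  rw [eq_inv_iff_mul_eq_one, ← tra_add, neg_add_cancel, tra_zero]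

theorem tra_inj {v w : VV} (h : tra v = tra w) : v = w := congrArg GG.v h

theorem pr_tra (v : VV) : pr (tra v) = 1 := rfl

theorem eq_tra {g : GG} (h : pr g = 1) : g = tra g.v := GG.ext h rfl

theorem conj_tra (g : GG) (v : VV) : g * tra v * g⁻¹ = tra (act g.c v) := by
  rw [mul_inv_eq_iff_eq_mul]
  refine GG.ext ?_ ?_
  · change g.c * 1 = 1 * g.c
    rw [mul_one, one_mul]
  · change g.v + act g.c v = act g.c v + act 1 g.v
    rw [act_one, add_comm]

/-- The Frobenius property. -/
theorem frob {g : GG} {v : VV} (hg : pr g ≠ 1) (h : g * tra v = tra v * g) : v = 0 := by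
  refine act_fix (c := g.c) ?_ hg
  apply tra_inj
  rw [← conj_tra, h, mul_assoc, mul_inv_cancel, mul_one]

/-- The central involution. -/
def zz : CC := .a 6

theorem zz_central (c : CC) : c * zz = zz * c := by
  revert c
  decide

theorem zz_ne : zz ≠ 1 := by decide

theorem zz_sq : zz * zz = 1 := by decide

theorem invol (c : CC) (h : c * c = 1) : c = 1 ∨ c = zz := by
  revert c
  decide

theorem pow10 (c : CC) (h : c ^ 10 = 1) : c = 1 ∨ c = zz := by
  revert c
  decide

theorem card_CC : Nat.card CC = 24 := by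
  rw [Nat.card_eq_fintype_card, QuaternionGroup.card]

end Q4.Frat
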