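import Pool.Agent.Q4.Frat.Mod

/-!
# Lower sets generated by finite sets in a semilattice
-/

open CategoryTheory Abelian

namespace Q4.Frat

open Q4.Orb

section

variable {P : Type} [SemilatticeInf P] [Fintype P] [LocallyFiniteOrder P] [DecidableEq P]

/-- The lower set generated by a finite set. -/
def gen (s : Finset P) : LowerSet P :=
  ⟨{z | ∃ x ∈ s, z ≤ x}, fun _ _ h ⟨x, hx, hax⟩ => ⟨x, hx, h.trans hax⟩⟩

theorem mem_gen {s : Finset P} {z : P} : z ∈ gen s ↔ ∃ x ∈ s, z ≤ x := Iff.rfl

theorem notMem_gen_empty (z : P) : z ∉ gen (∅ : Finset P) := fun ⟨x, hx, _⟩ =>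
  absurd hx (Finset.notMem_empty x)

theorem gen_insert (x : P) (s : Finset P) : gen (insert x s) = gen s ⊔ LowerSet.Iic x := by
  ext z
  change z ∈ gen (insert x s) ↔ z ∈ gen s ⊔ LowerSet.Iic x
  rw [LowerSet.mem_sup_iff, LowerSet.mem_Iic_iff, mem_gen, mem_gen]
  constructor
  · rintro ⟨w, hw, hz⟩
    rcases Finset.mem_insert.1 hw with rfl | hw
    · exact Or.inr hz
    · exact Or.inl ⟨w, hw, hz⟩
  · rintro (⟨w, hw, hz⟩ | hz)
    · exact ⟨w, Finset.mem_insert_of_mem hw, hz⟩
    · exact ⟨x, Finset.mem_insert_self _ _, hz⟩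

theorem gen_inf (x : P) (s : Finset P) :
    gen s ⊓ LowerSet.Iic x = gen (s.image fun z => z ⊓ x) := by
  ext z
  change (z ∈ gen s ∧ z ≤ x) ↔ z ∈ gen (s.image fun z => z ⊓ x)
  rw [mem_gen, mem_gen]
  constructor
  · rintro ⟨⟨w, hw, hz⟩, hx⟩
    exact ⟨w ⊓ x, Finset.mem_image_of_mem _ hw, le_inf hz hx⟩
  · rintro ⟨w, hw, hz⟩
    obtain ⟨u, hu, rfl⟩ := Finset.mem_image.1 hw
    exact ⟨⟨u, hu, hz.trans inf_le_left⟩, hz.trans inf_le_right⟩

theorem van_empty (D : LowerSet P) (hD : ∀ z, z ∉ D) (y : P) : Ac y D := by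
  intro n
  have h1 : HasProjectiveDimensionLT (kk D) 0 := by
    have : Subsingleton (sub D ℚ) :=
      ⟨fun φ ψ => Subtype.ext (funext fun a => by rw [φ.2 a (hD a), ψ.2 a (hD a)])⟩
    exact pd_of_subsingleton 0 _
  exact HasProjectiveDimensionLT.subsingleton _ 0 n (Nat.zero_le _) _

theorem ac_gen (y : P) (L : Set P) (hL : ∀ a ∈ L, ∀ b ∈ L, a ⊓ b ∈ L) (hy : y ∉ L) :
    ∀ (n : ℕ) (s : Finset P), s.card ≤ n → (∀ x ∈ s, x ∈ L) → Ac y (gen s) := by
  intro n
  induction n with
  | zero =>
    intro s hs _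
    have h1 : s = ∅ := Finset.card_eq_zero.1 (Nat.le_zero.1 hs)
    subst h1
    exact van_empty _ notMem_gen_empty y
  | succ n ih =>
    intro s hs hsL
    rcases s.eq_empty_or_nonempty with rfl | ⟨x, hx⟩
    · exact van_empty _ notMem_gen_empty y
    · have h1 : insert x (s.erase x) = s := Finset.insert_erase hx
      have hc : (s.erase x).card ≤ n := by
        rw [Finset.card_erase_of_mem hx]
        omega
      rw [← h1, gen_insert]
      refine Ac.sup ?_ (ih _ hc fun z hz => hsL z (Finset.mem_of_mem_erase hz)) (ac_Iic ?_)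
      · rw [gen_inf]
        refine ih _ (Finset.card_image_le.trans hc) fun z hz => ?_
        obtain ⟨w, hw, rfl⟩ := Finset.mem_image.1 hz
        exact hL _ (hsL w (Finset.mem_of_mem_erase hw)) _ (hsL x hx)
      · rintro rfl
        exact hy (hsL x hx)

/-- A lower set generated by elements of a meet-closed set which does not contain `y` is acyclic. -/
theorem ac_of {y : P} {D : LowerSet P} (L : Set P) (hL : ∀ a ∈ L, ∀ b ∈ L, a ⊓ b ∈ L) (hy : y ∉ L)
    (hD : ∀ z ∈ D, ∃ x ∈ D, x ∈ L ∧ z ≤ x) : Ac y D := by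
  classical
  have h1 : D = gen (Finset.univ.filter fun x => x ∈ D ∧ x ∈ L) := by
    ext z
    constructor
    · intro hz
      obtain ⟨x, hx, hxL, hzx⟩ := hD z hz
      exact ⟨x, Finset.mem_filter.2 ⟨Finset.mem_univ _, hx, hxL⟩, hzx⟩
    · rintro ⟨x, hx, hzx⟩
      exact D.lower hzx (Finset.mem_filter.1 hx).2.1
  rw [h1]
  exact ac_gen y L hL hy _ _ le_rfl fun x hx => (Finset.mem_filter.1 hx).2.2

theorem ac_gen_cone [OrderBot P] :
    ∀ (n : ℕ) (L : Set P) (_ : ∀ a ∈ L, ∀ b ∈ L, a ⊓ b ∈ L) (Y : P) (_ : Y ≠ ⊥)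
      (_ : ∀ x ∈ L, x ≠ ⊥ → x ⊓ Y ≠ ⊥) (s : Finset P), s.card ≤ n → (∀ x ∈ s, x ∈ L) →
      Ac (⊥ : P) (gen s ⊔ LowerSet.Iic Y) := by
  intro n
  induction n with
  | zero =>
    intro L hL Y hY hLY s hs _
    have h1 : s = ∅ := Finset.card_eq_zero.1 (Nat.le_zero.1 hs)
    subst h1
    have h2 : gen (∅ : Finset P) ⊔ LowerSet.Iic Y = LowerSet.Iic Y := by
      refine sup_eq_right.2 ?_
      rintro z ⟨x, hx, _⟩
      exact absurd hx (Finset.notMem_empty x)
    rw [h2]
    exact ac_Iic hY
  | succ n ih =>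
    intro L hL Y hY hLY s hs hsL
    rcases s.eq_empty_or_nonempty with rfl | ⟨x, hx⟩
    · exact ih L hL Y hY hLY ∅ (by simp) (fun x hx => absurd hx (Finset.notMem_empty x))
    · have h1 : insert x (s.erase x) = s := Finset.insert_erase hx
      have hc : (s.erase x).card ≤ n := by
        rw [Finset.card_erase_of_mem hx]
        omega
      have h2 := ih L hL Y hY hLY _ hc fun z hz => hsL z (Finset.mem_of_mem_erase hz)
      by_cases hxb : x = ⊥
      · have h3 : gen s ⊔ LowerSet.Iic Y = gen (s.erase x) ⊔ LowerSet.Iic Y := by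
          rw [← h1, gen_insert, hxb, Finset.erase_insert_eq_erase]
          apply le_antisymm
          · refine sup_le (sup_le ?_ ?_) le_sup_right
            · rw [Finset.erase_idem]
              exact le_sup_left
            · intro z hz
              have hz' : z = ⊥ := le_bot_iff.1 hz
              refine LowerSet.mem_sup_iff.2 (Or.inr ?_)
              rw [LowerSet.mem_Iic_iff, hz']
              exact bot_le
          · refine sup_le ?_ le_sup_right
            rw [Finset.erase_idem]
            exact le_sup_of_le_left le_sup_left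
        rw [h3]
        exact h2
      · have h3 : gen s ⊔ LowerSet.Iic Y =
            (gen (s.erase x) ⊔ LowerSet.Iic Y) ⊔ LowerSet.Iic x := by
          conv_lhs => rw [← h1, gen_insert]
          exact sup_right_comm _ _ _
        rw [h3]
        refine Ac.sup ?_ h2 (ac_Iic hxb)
        have h4 : (gen (s.erase x) ⊔ LowerSet.Iic Y) ⊓ LowerSet.Iic x =
            gen ((s.erase x).image fun z => z ⊓ x) ⊔ LowerSet.Iic (Y ⊓ x) := by
          rw [inf_sup_right, gen_inf]
          congr 1
          ext z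
          exact le_inf_iff.symm
        rw [h4]
        refine ih {z | z ∈ L ∧ z ≤ x} (fun a ha b hb => ⟨hL a ha.1 b hb.1,
          inf_le_left.trans ha.2⟩) (Y ⊓ x) ?_ ?_ _ (Finset.card_image_le.trans hc) ?_
        · rw [inf_comm]
          exact hLY x (hsL x hx) hxb
        · rintro z ⟨hz, hzx⟩ hzb
          rw [inf_comm Y x, ← inf_assoc, inf_eq_left.2 hzx]
          exact hLY z hz hzb
        · intro z hz
          obtain ⟨w, hw, rfl⟩ := Finset.mem_image.1 hz
          exact ⟨hL _ (hsL w (Finset.mem_of_mem_erase hw)) _ (hsL x hx), inf_le_right⟩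

/-- Vanishing for a conically contractible interval. -/
theorem ac_cone [OrderBot P] {D : LowerSet P} (L : Set P) (hL : ∀ a ∈ L, ∀ b ∈ L, a ⊓ b ∈ L)
    (Y : P) (hY : Y ≠ ⊥) (hYD : Y ∈ D) (hLY : ∀ x ∈ L, x ≠ ⊥ → x ⊓ Y ≠ ⊥)
    (hD : ∀ z ∈ D, ∃ x ∈ D, x ∈ L ∧ z ≤ x) : Ac (⊥ : P) D := by
  classical
  have h1 : D = gen (Finset.univ.filter fun x => x ∈ D ∧ x ∈ L) ⊔ LowerSet.Iic Y := by
    ext z
    rw [SetLike.mem_coe, SetLike.mem_coe, LowerSet.mem_sup_iff]
    constructor
    · intro hz
      obtain ⟨x, hx, hxL, hzx⟩ := hD z hz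
      exact Or.inl ⟨x, Finset.mem_filter.2 ⟨Finset.mem_univ _, hx, hxL⟩, hzx⟩
    · rintro (⟨x, hx, hzx⟩ | h)
      · exact D.lower hzx (Finset.mem_filter.1 hx).2.1
      · exact D.lower h hYD
  rw [h1]
  exact ac_gen_cone _ L hL Y hY hLY _ le_rfl fun x hx => (Finset.mem_filter.1 hx).2.2

theorem pd_gen (L : Set P) (hL : ∀ a ∈ L, ∀ b ∈ L, a ⊓ b ∈ L) (ρ : P → ℕ)
    (hρ : ∀ a ∈ L, ∀ b ∈ L, a < b → ρ a < ρ b) :
    ∀ (d n : ℕ) (s : Finset P), s.card ≤ n → (∀ x ∈ s, x ∈ L ∧ ρ x ≤ d) →
      HasProjectiveDimensionLT (kk (gen s)) (d + 1) := by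
  have hemp : ∀ d : ℕ, HasProjectiveDimensionLT (kk (gen (∅ : Finset P))) d := by
    intro d
    have : Subsingleton (sub (gen (∅ : Finset P)) ℚ) :=
      ⟨fun φ ψ => Subtype.ext (funext fun a => by
        have h : a ∉ gen (∅ : Finset P) := fun ⟨x, hx, _⟩ => absurd hx (Finset.notMem_empty x)
        rw [φ.2 a h, ψ.2 a h])⟩
    exact pd_of_subsingleton d _
  intro d
  induction d with
  | zero =>
    intro n
    induction n with
    | zero =>
      intro s hs _
      have h1 : s = ∅ := Finset.card_eq_zero.1 (Nat.le_zero.1 hs)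
      subst h1
      exact hemp _
    | succ n ih =>
      intro s hs hsL
      rcases s.eq_empty_or_nonempty with rfl | ⟨x, hx⟩
      · exact hemp _
      · have h1 : insert x (s.erase x) = s := Finset.insert_erase hx
        have hc : (s.erase x).card ≤ n := by
          rw [Finset.card_erase_of_mem hx]
          omega
        rcases (s.erase x).eq_empty_or_nonempty with h2 | ⟨z, hz⟩
        · rw [← h1, h2, gen_insert]
          have h3 : gen (∅ : Finset P) ⊔ LowerSet.Iic x = LowerSet.Iic x := by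
            refine sup_eq_right.2 ?_
            rintro z ⟨x, hx, _⟩
            exact absurd hx (Finset.notMem_empty x)
          rw [h3]
          exact pd_Iic x
        · -- two different elements of rank zero: one is the infimum of both
          have hzs := Finset.mem_of_mem_erase hz
          have h3 : z ⊓ x = z ∧ z ⊓ x = x := by
            have hL1 := hL z (hsL z hzs).1 x (hsL x hx).1
            constructor
            · by_contra hne
              have h4 := hρ _ hL1 z (hsL z hzs).1 (lt_of_le_of_ne inf_le_left hne)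
              have h5 := (hsL z hzs).2
              omega
            · by_contra hne
              have h4 := hρ _ hL1 x (hsL x hx).1 (lt_of_le_of_ne inf_le_right hne)
              have h5 := (hsL x hx).2
              omega
          exact absurd (h3.1.symm.trans h3.2) (Finset.ne_of_mem_erase hz)
  | succ d ihd =>
    intro n
    induction n with
    | zero =>
      intro s hs _
      have h1 : s = ∅ := Finset.card_eq_zero.1 (Nat.le_zero.1 hs)
      subst h1
      exact hemp _
    | succ n ih =>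
      intro s hs hsL
      rcases s.eq_empty_or_nonempty with rfl | ⟨x, hx⟩
      · exact hemp _
      · have h1 : insert x (s.erase x) = s := Finset.insert_erase hx
        have hc : (s.erase x).card ≤ n := by
          rw [Finset.card_erase_of_mem hx]
          omega
        have h2 := ih (s.erase x) hc fun z hz => hsL z (Finset.mem_of_mem_erase hz)
        by_cases hcov : ∃ z ∈ s.erase x, x ≤ z
        · obtain ⟨z, hz, hxz⟩ := hcov
          have h3 : gen s = gen (s.erase x) := by
            rw [← h1, gen_insert, Finset.erase_insert_eq_erase, Finset.erase_idem]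
            refine sup_eq_left.2 ?_
            intro w hw
            exact ⟨z, hz, le_trans hw hxz⟩
          rw [h3]
          exact h2
        · push Not at hcov
          rw [← h1, gen_insert]
          have h7 : HasProjectiveDimensionLT (kk (LowerSet.Iic x)) 1 := pd_Iic x
          refine pd_sup ?_ h2 (hasProjectiveDimensionLT_of_ge _ 1 _ (by omega))
          rw [gen_inf]
          refine ihd _ _ le_rfl fun w hw => ?_
          obtain ⟨z, hz, rfl⟩ := Finset.mem_image.1 hw
          have hzs := Finset.mem_of_mem_erase hz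
          have hL1 := hL z (hsL z hzs).1 x (hsL x hx).1
          refine ⟨hL1, ?_⟩
          have h4 : z ⊓ x < x := lt_of_le_of_ne inf_le_right fun h => hcov z hz (by
            rw [← h]; exact inf_le_left)
          have h5 := hρ _ hL1 x (hsL x hx).1 h4
          have h6 := (hsL x hx).2
          omega

/-- A bound for the projective dimension of a simple module. -/
theorem pd_simple (L : Set P) (hL : ∀ a ∈ L, ∀ b ∈ L, a ⊓ b ∈ L) (ρ : P → ℕ)
    (hρ : ∀ a ∈ L, ∀ b ∈ L, a < b → ρ a < ρ b) (x : P) (d : ℕ)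
    (hx : ∀ z, z < x → ∃ w ∈ L, z ≤ w ∧ w < x ∧ ρ w ≤ d) :
    HasProjectiveDimensionLT (SS x) (d + 2) := by
  classical
  have h1 : LowerSet.Iio x = gen (Finset.univ.filter fun w => w ∈ L ∧ w < x ∧ ρ w ≤ d) := by
    ext z
    constructor
    · intro hz
      obtain ⟨w, hw, hzw, hwx, hwd⟩ := hx z hz
      exact ⟨w, Finset.mem_filter.2 ⟨Finset.mem_univ _, hw, hwx, hwd⟩, hzw⟩
    · rintro ⟨w, hw, hzw⟩
      exact lt_of_le_of_lt hzw (Finset.mem_filter.1 hw).2.2.1
  refine top_pd ?_ (Nat.succ_pos _)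
  rw [h1]
  exact pd_gen L hL ρ hρ d _ _ le_rfl fun w hw =>
    ⟨(Finset.mem_filter.1 hw).2.1, (Finset.mem_filter.1 hw).2.2.2⟩

end

end Q4.Frat
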