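import Pool.Agent.Q4.Frat.Up

/-!
# A fourth extension group that is not zero
-/

open CategoryTheory Abelian

namespace Q4.Frat

/-- The subgroups with a proper image. -/
def DA : LowerSet (Subgroup GG) :=
  ⟨{L | cc L ≠ ⊤}, fun _ _ h h1 h2 => h1 (top_le_iff.1 (h2 ▸ cc_mono h))⟩

/-- The subgroups of the complements. -/
def EA : LowerSet (Subgroup GG) := ⟨{L | ∃ M, Cp M ∧ L ≤ M}, fun _ _ h ⟨M, hM, h1⟩ =>
  ⟨M, hM, h.trans h1⟩⟩

/-- First part. -/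
def DN : LowerSet (Subgroup GG) :=
  ⟨{L | L ≤ C0 ∧ cc L ⊔ NN ≠ ⊤}, fun _ _ h h1 => ⟨h.trans h1.1, fun h2 =>
    h1.2 (top_le_iff.1 (h2 ▸ sup_le_sup_right (cc_mono h) NN))⟩⟩

/-- Second part. -/
def EN : LowerSet (Subgroup GG) :=
  ⟨{L | L ≤ C0 ∧ cc L ⊓ TT ≤ R0}, fun _ _ h h1 => ⟨h.trans h1.1,
    (inf_le_inf_right TT (cc_mono h)).trans h1.2⟩⟩

/-- The proper subgroups of the other complements. -/
def FA : LowerSet (Subgroup GG) := ⟨{L | ∃ M, Cp M ∧ M ≠ C0 ∧ L < M}, fun _ _ h ⟨M, hM, h1, h2⟩ =>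
  ⟨M, hM, h1, lt_of_le_of_lt h h2⟩⟩

/-- The rest. -/
def FN : LowerSet (Subgroup GG) :=
  ⟨{L | (L ∈ DN ∧ L ∈ EN) ∧ ¬ em R0 ≤ L}, fun _ _ h h1 =>
    ⟨⟨DN.lower h h1.1.1, EN.lower h h1.1.2⟩, fun h2 => h1.2 (h2.trans h)⟩⟩

theorem em_bot : em ⊥ = ⊥ := Subgroup.map_bot _

theorem y_ne_bot : em ZZ ≠ ⊥ := by
  rw [← em_bot]
  intro h
  have := congrArg cc h
  rw [cc_em, cc_em] at this
  exact ZZ_bot this

theorem ac_DA : Ac (em ZZ) DA := by
  refine ac_of {L | ww L = ⊤} ?_ ?_ ?_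
  · intro a ha b hb
    change ww (a ⊓ b) = ⊤
    rw [ww_inf, show ww a = ⊤ from ha, show ww b = ⊤ from hb, top_inf_eq]
  · intro h
    have h1 : ww (em ZZ) = ⊤ := h
    rw [ww_em] at h1
    exact bot_ne_top h1
  · intro z hz
    refine ⟨up (cc z), ?_, ww_up _, le_up z⟩
    change cc (up (cc z)) ≠ ⊤
    rw [cc_up]
    exact hz

theorem ac_EA : Ac (em ZZ) EA := by
  refine ac_of {L | L = ⊥ ∨ Cp L} ?_ ?_ ?_
  · rintro a (rfl | ha) b hb
    · exact Or.inl (bot_inf_eq _)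
    · rcases hb with rfl | hb
      · exact Or.inl (inf_bot_eq _)
      · by_cases h : a = b
        · rw [h, inf_idem]
          exact Or.inr hb
        · exact Or.inl (Cp.inf ha hb h)
  · rintro (h | h)
    · exact y_ne_bot h
    · have := h.2
      rw [cc_em] at this
      exact ZZ_top this
  · rintro z ⟨M, hM, hz⟩
    exact ⟨M, ⟨M, hM, le_rfl⟩, Or.inr hM, hz⟩

theorem ac_DN : Ac (em ZZ) DN := by
  refine ac_of {L | em NN ≤ L} (fun a (ha : em NN ≤ a) b (hb : em NN ≤ b) =>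
    show em NN ≤ a ⊓ b from le_inf ha hb) ?_ ?_
  · intro h
    exact N_not_Z (em_le.1 h)
  · rintro z ⟨hz, hz'⟩
    refine ⟨z ⊔ em NN, ⟨sup_le hz (em_le_C0 _), ?_⟩,
      show em NN ≤ z ⊔ em NN from le_sup_right, le_sup_left⟩
    rw [cc_sup, cc_em, sup_assoc, sup_idem]
    exact hz'

theorem ac_EN : Ac (em ZZ) EN := by
  refine ac_of {L | em R0 ≤ L} (fun a (ha : em R0 ≤ a) b (hb : em R0 ≤ b) =>
    show em R0 ≤ a ⊓ b from le_inf ha hb) ?_ ?_
  · intro h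
    exact Z_R0.not_ge (em_le.1 h)
  · rintro z ⟨hz, hz'⟩
    refine ⟨z ⊔ em R0, ⟨sup_le hz (em_le_C0 _), ?_⟩,
      show em R0 ≤ z ⊔ em R0 from le_sup_right, le_sup_left⟩
    rw [cc_sup, cc_em]
    exact c6 hz'

theorem eq1 : DA ⊔ EA = LowerSet.Iio ⊤ := by
  ext L
  rw [SetLike.mem_coe, SetLike.mem_coe, LowerSet.mem_sup_iff, LowerSet.mem_Iio_iff]
  constructor
  · rintro (h | ⟨M, hM, h⟩)
    · refine lt_top_iff_ne_top.2 fun he => h ?_
      rw [he, cc, ← MonoidHom.range_eq_map, MonoidHom.range_eq_top]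
      exact fun c => ⟨emb c, rfl⟩
    · refine lt_of_le_of_lt h (lt_top_iff_ne_top.2 fun he => ?_)
      have h1 := hM.1
      rw [he] at h1
      have h2 : v0 ∈ ww (⊤ : Subgroup GG) := Subgroup.mem_top (tra v0)
      rw [h1] at h2
      exact v0_ne ((Submodule.mem_bot _).1 h2)
  · intro h
    by_cases hc : cc L = ⊤
    · right
      rcases not_line (H := L) (by rw [hc, Subgroup.card_top, card_CC]; norm_num) with h1 | h1
      · exact ⟨L, ⟨h1, hc⟩, le_rfl⟩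
      · exfalso
        refine h.ne (eq_of le_top ?_ ?_)
        · rw [h1]
          exact le_top
        · rw [hc]
          exact le_top
    · exact Or.inl hc

theorem eq2 : DA ⊓ EA = LowerSet.Iio C0 ⊔ FA := by
  ext L
  rw [SetLike.mem_coe, SetLike.mem_coe, LowerSet.mem_sup_iff, LowerSet.mem_Iio_iff,
    LowerSet.mem_inf_iff]
  constructor
  · rintro ⟨h, M, hM, hL⟩
    by_cases h1 : M = C0
    · left
      rw [← h1]
      exact (Cp.lt hL hM).2 h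
    · right
      exact ⟨M, hM, h1, (Cp.lt hL hM).2 h⟩
  · rintro (h | ⟨M, hM, _, h⟩)
    · exact ⟨(Cp.lt h.le cp_C0).1 h, C0, cp_C0, h.le⟩
    · exact ⟨(Cp.lt h.le hM).1 h, M, hM, h.le⟩

theorem ac_inf : Ac (em ZZ) (LowerSet.Iio C0 ⊓ FA) := by
  refine ac_of {⊥} ?_ ?_ ?_
  · rintro a rfl b rfl
    exact inf_idem _
  · exact fun h => y_ne_bot h
  · rintro z ⟨hz, M, hM, hM1, hM2⟩
    have h1 : z = ⊥ := by
      have h2 : z ≤ C0 ⊓ M := le_inf (le_of_lt hz) hM2.le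
      rw [Cp.inf cp_C0 hM (Ne.symm hM1)] at h2
      exact le_bot_iff.1 h2
    exact ⟨z, ⟨hz, M, hM, hM1, hM2⟩, h1, le_rfl⟩

theorem eq3 : DN ⊔ EN = LowerSet.Iio C0 := by
  ext L
  rw [SetLike.mem_coe, SetLike.mem_coe, LowerSet.mem_sup_iff, LowerSet.mem_Iio_iff]
  constructor
  · rintro (h | h)
    · refine (Cp.lt h.1 cp_C0).2 fun he => h.2 ?_
      rw [he, top_sup_eq]
    · refine (Cp.lt h.1 cp_C0).2 fun he => ?_
      have h2 := h.2
      rw [he, top_inf_eq] at h2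
      exact absurd (h2 (show fT aa = true by decide)) (show ¬ fR aa = true by decide)
  · intro h
    rcases c1 ((Cp.lt h.le cp_C0).1 h) with h1 | h1
    · exact Or.inl ⟨h.le, h1⟩
    · exact Or.inr ⟨h.le, h1⟩

theorem eq4 : DN ⊓ EN = LowerSet.Iic (em R0) ⊔ FN := by
  ext L
  rw [SetLike.mem_coe, SetLike.mem_coe, LowerSet.mem_sup_iff, LowerSet.mem_Iic_iff,
    LowerSet.mem_inf_iff]
  constructor
  · intro h
    by_cases h1 : em R0 ≤ L
    · left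
      have h2 : R0 ≤ cc L := by
        have := cc_mono h1
        rwa [cc_em] at this
      rw [eq_em h.1.1]
      exact em_mono (c2 h2 h.1.2 h.2.2)
    · exact Or.inr ⟨h, h1⟩
  · rintro (h | h)
    · refine ⟨DN.lower h ⟨em_le_C0 _, ?_⟩, EN.lower h ⟨em_le_C0 _, ?_⟩⟩
      · rw [cc_em]
        exact R0_N
      · rw [cc_em]
        exact inf_le_left
    · exact h.1

theorem Z_mem_FN : em ZZ ∈ FN := by
  refine ⟨⟨⟨em_le_C0 _, ?_⟩, em_le_C0 _, ?_⟩, fun h => ?_⟩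
  · rw [cc_em]
    exact Z_sup_N
  · rw [cc_em]
    exact Z_inf_T
  · exact Z_R0.not_ge (em_le.1 h)

theorem R1_mem_FN : em R1 ∈ FN := by
  refine ⟨⟨⟨em_le_C0 _, ?_⟩, em_le_C0 _, ?_⟩, fun h => ?_⟩
  · rw [cc_em]
    exact R1_N
  · rw [cc_em]
    exact R1_inf
  · exact R0_R1 (em_le.1 h)

theorem eq5 : LowerSet.Iic (em R0) ⊓ FN = LowerSet.Iic (em ZZ) := by
  ext L
  rw [SetLike.mem_coe, SetLike.mem_coe, LowerSet.mem_inf_iff, LowerSet.mem_Iic_iff,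
    LowerSet.mem_Iic_iff]
  constructor
  · rintro ⟨h, h1⟩
    have h2 : L < em R0 := lt_of_le_not_ge h h1.2
    rw [eq_em h1.1.1.1] at h2 ⊢
    exact em_mono (c3 (em_lt.1 h2))
  · intro h
    exact ⟨h.trans (em_mono Z_R0.le), FN.lower h Z_mem_FN⟩

/-- The nonvanishing. -/
theorem lower : Nontrivial (Ext (SS (⊤ : Subgroup GG)) (SS (em ZZ)) 4) := by
  have k0 : Nontrivial (Ext (kk (LowerSet.Iic (em R0) ⊓ FN)) (SS (em ZZ)) 0) := by
    rw [eq5]
    exact ext_nonzero _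
  have k1 : Nontrivial (Ext (kk (DN ⊓ EN)) (SS (em ZZ)) 1) := by
    rw [eq4]
    exact mv_non k0 (ext_zero fun _ => ⟨em R0, LowerSet.mem_Iic_iff.2 le_rfl, em_lt.2 Z_R0⟩)
      (ext_zero fun _ => ⟨em R1, R1_mem_FN, em_lt.2 Z_R1⟩)
  have k2 : Nontrivial (Ext (kk (LowerSet.Iio C0)) (SS (em ZZ)) 2) := by
    rw [← eq3]
    exact mv_non k1 (ac_DN 1) (ac_EN 1)
  have k3 : Nontrivial (Ext (kk (DA ⊓ EA)) (SS (em ZZ)) 2) := by
    rw [eq2]
    exact mv_non' (ac_inf 2) k2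
  have k4 : Nontrivial (Ext (kk (LowerSet.Iio (⊤ : Subgroup GG))) (SS (em ZZ)) 3) := by
    rw [← eq1]
    exact mv_non k3 (ac_DA 2) (ac_EA 2)
  refine top_non ?_ k4
  intro h
  have h1 := em_le_C0 ZZ
  rw [← h, top_le_iff] at h1
  have h2 : v0 ∈ ww C0 := by
    rw [h1]
    exact Subgroup.mem_top (tra v0)
  rw [ww_C0] at h2
  exact v0_ne ((Submodule.mem_bot _).1 h2)

/-- The global dimension is at least four. -/
theorem gldim_ge : ((4 : ℕ) : WithBot ℕ∞) ≤ gldim (ModuleCat.{0} (IA GG)) := by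
  refine le_trans ?_ (le_iSup (fun X : ModuleCat.{0} (IA GG) => projectiveDimension X)
    (simple (⊤ : Subgroup GG)))
  by_contra hlt
  rw [not_le, projectiveDimension_lt_iff] at hlt
  have h1 : Subsingleton (Ext (simple (⊤ : Subgroup GG)) (simple (em ZZ)) 4) :=
    HasProjectiveDimensionLT.subsingleton _ 4 4 le_rfl _
  exact not_subsingleton_iff_nontrivial.2 lower h1

end Q4.Frat
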