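import Pool.Agent.Q4.Frat.Defs
import Pool.Agent.Q4.Orb.IA

/-!
# Extensions between modules supported on lower sets and simple modules
-/

open CategoryTheory Abelian

namespace Q4.Frat

open Q4.Orb

section abelian

variable {C : Type*} [Category* C] [Abelian C] [HasExt.{0} C] {S : ShortComplex C}

theorem van3 (hS : S.ShortExact) (Y : C) {n : ℕ} (h1 : Subsingleton (Ext S.X₁ Y n))
    (h2 : Subsingleton (Ext S.X₂ Y (n + 1))) : Subsingleton (Ext S.X₃ Y (n + 1)) := by
  refine subsingleton_of_forall_eq 0 fun x => ?_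
  obtain ⟨x₁, rfl⟩ := Ext.contravariant_sequence_exact₃ hS Y x (Subsingleton.elim _ _)
    (n₀ := n) (by omega)
  rw [Subsingleton.elim x₁ 0, Ext.comp_zero]

theorem van3_zero (hS : S.ShortExact) (Y : C) (h2 : Subsingleton (Ext S.X₂ Y 0)) :
    Subsingleton (Ext S.X₃ Y 0) := by
  have := hS.epi_g
  exact (Ext.precomp_mk₀_injective_of_epi Y S.g).subsingleton

theorem van2 (hS : S.ShortExact) (Y : C) {n : ℕ} (h1 : Subsingleton (Ext S.X₁ Y n))
    (h3 : Subsingleton (Ext S.X₃ Y n)) : Subsingleton (Ext S.X₂ Y n) := by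
  refine subsingleton_of_forall_eq 0 fun x => ?_
  obtain ⟨x₁, rfl⟩ := Ext.contravariant_sequence_exact₂ hS Y x (Subsingleton.elim _ _)
  rw [Subsingleton.elim x₁ 0, Ext.comp_zero]

theorem non3 (hS : S.ShortExact) (Y : C) {n : ℕ} (h1 : Nontrivial (Ext S.X₁ Y n))
    (h2 : Subsingleton (Ext S.X₂ Y n)) : Nontrivial (Ext S.X₃ Y (n + 1)) := by
  obtain ⟨x, hx⟩ := exists_ne (0 : Ext S.X₁ Y n)
  refine ⟨⟨hS.extClass.comp x (by omega), 0, fun h => hx ?_⟩⟩
  obtain ⟨y, hy⟩ := Ext.contravariant_sequence_exact₁ hS Y x (n₁ := n + 1) (by omega) h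
  rw [← hy, Subsingleton.elim y 0, Ext.comp_zero]

theorem non3' (hS : S.ShortExact) (Y : C) {n : ℕ} (h1 : Subsingleton (Ext S.X₁ Y n))
    (h2 : Nontrivial (Ext S.X₂ Y n)) : Nontrivial (Ext S.X₃ Y n) := by
  obtain ⟨x, hx⟩ := exists_ne (0 : Ext S.X₂ Y n)
  obtain ⟨y, hy⟩ := Ext.contravariant_sequence_exact₂ hS Y x (Subsingleton.elim _ _)
  refine ⟨⟨y, 0, fun h => hx ?_⟩⟩
  rw [← hy, h, Ext.comp_zero]

theorem non_retract {X X' Y : C} (i : X ⟶ X') (r : X' ⟶ X) (h : i ≫ r = 𝟙 X) {n : ℕ}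
    (h1 : Nontrivial (Ext X Y n)) : Nontrivial (Ext X' Y n) := by
  obtain ⟨x, hx⟩ := exists_ne (0 : Ext X Y n)
  refine ⟨⟨(Ext.mk₀ r).comp x (zero_add n), 0, fun h2 => hx ?_⟩⟩
  have h3 : (Ext.mk₀ i).comp ((Ext.mk₀ r).comp x (zero_add n)) (zero_add n) = x := by
    rw [Ext.mk₀_comp_mk₀_assoc, h, Ext.mk₀_id_comp]
  rw [← h3, h2, Ext.comp_zero]

end abelian

section

variable {P : Type} [PartialOrder P] [Fintype P] [LocallyFiniteOrder P] [DecidableEq P]

/-- The functions on a lower set, as a module over the incidence algebra. -/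
noncomputable abbrev kk (D : LowerSet P) : ModuleCat.{0} (RR P) := ModuleCat.of (RR P) (sub D ℚ)

/-- The simple modules. -/
noncomputable abbrev SS (y : P) : ModuleCat.{0} (RR P) := ModuleCat.of (RR P) (Simp y)

/-- The vanishing of all extensions. -/
def Ac (y : P) (D : LowerSet P) : Prop := ∀ n, Subsingleton (Ext (kk D) (SS y) n)

theorem prod_exact (D E : LowerSet P) : ∃ S : ShortComplex (ModuleCat.{0} (RR P)),
    S.ShortExact ∧ S.X₁ = kk D ∧ S.X₂ = ModuleCat.of (RR P) (sub D ℚ × sub E ℚ) ∧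
      S.X₃ = kk E := by
  let f : sub D ℚ →ₗ[RR P] (sub D ℚ × sub E ℚ) := LinearMap.inl _ _ _
  let g : (sub D ℚ × sub E ℚ) →ₗ[RR P] sub E ℚ := LinearMap.snd _ _ _
  have hex : Function.Exact f g := by
    rintro ⟨a, b⟩
    constructor
    · intro h
      exact ⟨a, Prod.ext rfl h.symm⟩
    · rintro ⟨c, hc⟩
      rw [← hc]
      rfl
  let S : ShortComplex (ModuleCat (RR P)) := ShortComplex.mk (ModuleCat.ofHom f) (ModuleCat.ofHom g)
    (by
      ext1
      exact hex.linearMap_comp_eq_zero)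
  exact ⟨S, ModuleCat.shortComplex_shortExact S hex LinearMap.inl_injective
    LinearMap.snd_surjective, rfl, rfl, rfl⟩

/-- The Mayer-Vietoris sequence. -/
theorem mv_exact (D E : LowerSet P) : ∃ S : ShortComplex (ModuleCat.{0} (RR P)),
    S.ShortExact ∧ S.X₁ = kk (D ⊓ E) ∧ S.X₂ = ModuleCat.of (RR P) (sub D ℚ × sub E ℚ) ∧
      S.X₃ = kk (D ⊔ E) := by
  classical
  let f : sub (D ⊓ E) ℚ →ₗ[RR P] (sub D ℚ × sub E ℚ) :=
    (incl inf_le_left).prod (-incl inf_le_right)
  let g : (sub D ℚ × sub E ℚ) →ₗ[RR P] sub (D ⊔ E) ℚ :=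
    (incl le_sup_left).coprod (incl le_sup_right)
  have hg : ∀ φ ψ, ((g (φ, ψ) : sub (D ⊔ E) ℚ) : Fn P ℚ) =
      (φ : Fn P ℚ) + (ψ : Fn P ℚ) := fun φ ψ => rfl
  have hex : Function.Exact f g := by
    rintro ⟨φ, ψ⟩
    constructor
    · intro h
      have h1 : (φ : Fn P ℚ) + (ψ : Fn P ℚ) = 0 := by
        rw [← hg, h]
        rfl
      have h2 : (φ : Fn P ℚ) ∈ sub (D ⊓ E) ℚ := by
        intro y hy
        by_cases hya : y ∈ D
        · have hyb : y ∉ E := fun hyb => hy ⟨hya, hyb⟩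
          have h3 := congrFun h1 y
          rw [Fn.add_apply', ψ.2 y hyb, add_zero] at h3
          exact h3
        · exact φ.2 y hya
      refine ⟨⟨φ, h2⟩, ?_⟩
      refine Prod.ext (Subtype.ext rfl) (Subtype.ext ?_)
      change -(φ : Fn P ℚ) = ψ
      exact neg_eq_of_add_eq_zero_right h1
    · rintro ⟨χ, hχ⟩
      rw [← hχ]
      apply Subtype.ext
      change (χ : Fn P ℚ) + -(χ : Fn P ℚ) = 0
      exact add_neg_cancel _
  have hinj : Function.Injective f := by
    intro φ ψ h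
    have h1 := congrArg (fun p : sub D ℚ × sub E ℚ => ((p.1 : sub D ℚ) : Fn P ℚ)) h
    exact Subtype.ext h1
  have hsurj : Function.Surjective g := by
    intro χ
    refine ⟨(⟨fun y => if y ∈ D then χ.1 y else 0, fun y hy => if_neg hy⟩,
      ⟨fun y => if y ∈ D then 0 else χ.1 y, fun y hy => ?_⟩), ?_⟩
    · change (if y ∈ D then 0 else χ.1 y) = 0
      split_ifs with h
      · rfl
      · refine χ.2 y fun hm => ?_
        rcases LowerSet.mem_sup_iff.1 hm with h' | h'
        · exact h h'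
        · exact hy h'
    · apply Subtype.ext
      funext y
      rw [hg]
      change (if y ∈ D then χ.1 y else 0) + (if y ∈ D then 0 else χ.1 y) = χ.1 y
      split_ifs
      · exact add_zero _
      · exact zero_add _
  let S : ShortComplex (ModuleCat (RR P)) := ShortComplex.mk (ModuleCat.ofHom f) (ModuleCat.ofHom g)
    (by
      ext1
      exact hex.linearMap_comp_eq_zero)
  exact ⟨S, ModuleCat.shortComplex_shortExact S hex hinj hsurj, rfl, rfl, rfl⟩

theorem van_prod {D E : LowerSet P} {Y : ModuleCat.{0} (RR P)} {n : ℕ}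
    (h1 : Subsingleton (Ext (kk D) Y n)) (h2 : Subsingleton (Ext (kk E) Y n)) :
    Subsingleton (Ext (ModuleCat.of (RR P) (sub D ℚ × sub E ℚ)) Y n) := by
  obtain ⟨S, hS, e1, e2, e3⟩ := prod_exact D E
  rw [← e2]
  rw [← e1] at h1
  rw [← e3] at h2
  exact van2 hS Y h1 h2

theorem mv_van {D E : LowerSet P} {Y : ModuleCat.{0} (RR P)} {n : ℕ}
    (h0 : Subsingleton (Ext (kk (D ⊓ E)) Y n)) (h1 : Subsingleton (Ext (kk D) Y (n + 1)))
    (h2 : Subsingleton (Ext (kk E) Y (n + 1))) : Subsingleton (Ext (kk (D ⊔ E)) Y (n + 1)) := by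
  have h3 := van_prod h1 h2
  obtain ⟨S, hS, e1, e2, e3⟩ := mv_exact D E
  rw [← e3]
  rw [← e1] at h0
  rw [← e2] at h3
  exact van3 hS Y h0 h3

theorem mv_van_zero {D E : LowerSet P} {Y : ModuleCat.{0} (RR P)}
    (h1 : Subsingleton (Ext (kk D) Y 0))
    (h2 : Subsingleton (Ext (kk E) Y 0)) : Subsingleton (Ext (kk (D ⊔ E)) Y 0) := by
  have h3 := van_prod h1 h2
  obtain ⟨S, hS, e1, e2, e3⟩ := mv_exact D E
  rw [← e3]
  rw [← e2] at h3
  exact van3_zero hS Y h3

theorem Ac.sup {y : P} {D E : LowerSet P} (h0 : Ac y (D ⊓ E)) (h1 : Ac y D) (h2 : Ac y E) :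
    Ac y (D ⊔ E) := by
  intro n
  cases n with
  | zero => exact mv_van_zero (h1 0) (h2 0)
  | succ n => exact mv_van (h0 n) (h1 _) (h2 _)

theorem mv_non {D E : LowerSet P} {Y : ModuleCat.{0} (RR P)} {n : ℕ}
    (h0 : Nontrivial (Ext (kk (D ⊓ E)) Y n)) (h1 : Subsingleton (Ext (kk D) Y n))
    (h2 : Subsingleton (Ext (kk E) Y n)) : Nontrivial (Ext (kk (D ⊔ E)) Y (n + 1)) := by
  have h3 := van_prod h1 h2
  obtain ⟨S, hS, e1, e2, e3⟩ := mv_exact D E
  rw [← e3]
  rw [← e1] at h0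
  rw [← e2] at h3
  exact non3 hS Y h0 h3

theorem mv_non' {D E : LowerSet P} {Y : ModuleCat.{0} (RR P)} {n : ℕ}
    (h0 : Subsingleton (Ext (kk (D ⊓ E)) Y n)) (h1 : Nontrivial (Ext (kk D) Y n)) :
    Nontrivial (Ext (kk (D ⊔ E)) Y n) := by
  have h3 : Nontrivial (Ext (ModuleCat.of (RR P) (sub D ℚ × sub E ℚ)) Y n) := by
    refine non_retract (X := kk D) (ModuleCat.ofHom (LinearMap.inl (RR P) (sub D ℚ) (sub E ℚ)))
      (ModuleCat.ofHom (LinearMap.fst (RR P) (sub D ℚ) (sub E ℚ))) ?_ h1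
    ext x
    rfl
  obtain ⟨S, hS, e1, e2, e3⟩ := mv_exact D E
  rw [← e3]
  rw [← e1] at h0
  rw [← e2] at h3
  exact non3' hS Y h0 h3

theorem pd_prod {D E : LowerSet P} {n : ℕ} (h1 : HasProjectiveDimensionLT (kk D) n)
    (h2 : HasProjectiveDimensionLT (kk E) n) :
    HasProjectiveDimensionLT (ModuleCat.of (RR P) (sub D ℚ × sub E ℚ)) n := by
  obtain ⟨S, hS, e1, e2, e3⟩ := prod_exact D E
  rw [← e2]
  rw [← e1] at h1
  rw [← e3] at h2
  exact hS.hasProjectiveDimensionLT_X₂ n h1 h2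

theorem pd_sup {D E : LowerSet P} {n : ℕ} (h0 : HasProjectiveDimensionLT (kk (D ⊓ E)) n)
    (h1 : HasProjectiveDimensionLT (kk D) (n + 1)) (h2 : HasProjectiveDimensionLT (kk E) (n + 1)) :
    HasProjectiveDimensionLT (kk (D ⊔ E)) (n + 1) := by
  have h3 := pd_prod h1 h2
  obtain ⟨S, hS, e1, e2, e3⟩ := mv_exact D E
  rw [← e3]
  rw [← e1] at h0
  rw [← e2] at h3
  exact hS.hasProjectiveDimensionLT_X₃ n h0 h3

/-- The matrix unit `e_{x,z}`. -/
def unit2 (x z : P) (h : x ≤ z) : RR P where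
  toFun := fun a c => if a = x ∧ c = z then 1 else 0
  eq_zero_of_not_le' := by
    intro a c h'
    rw [if_neg]
    rintro ⟨rfl, rfl⟩
    exact h' h

/-- The delta function. -/
def del {D : LowerSet P} {z : P} (hz : z ∈ D) : sub D ℚ :=
  ⟨fun a => if a = z then 1 else 0, fun a ha => if_neg fun h => ha (by rw [h]; exact hz)⟩

theorem simp_smul (y : P) (f : RR P) (q : Simp y) : f • q = (f y y * (show ℚ from q) : ℚ) := rfl

theorem hom_zero {D : LowerSet P} {y : P} (h : y ∈ D → ∃ z ∈ D, y < z)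
    (f : sub D ℚ →ₗ[RR P] Simp y) : f = 0 := by
  have hdel : ∀ hy : y ∈ D, f (del hy) = 0 := by
    intro hy
    obtain ⟨z, hz, hyz⟩ := h hy
    have h1 : del hy = unit2 y z hyz.le • del hz := by
      apply Subtype.ext
      funext a
      change (if a = y then (1 : ℚ) else 0) =
        ∑ b, (if a = y ∧ b = z then (1 : ℚ) else 0) * (if b = z then (1 : ℚ) else 0)
      rw [Finset.sum_eq_single z]
      · by_cases ha : a = y <;> simp [ha]
      · intro b _ hb
        simp [hb]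
      · intro h'
        exact absurd (Finset.mem_univ z) h'
    rw [h1, map_smul, simp_smul]
    change ((if y = y ∧ y = z then (1 : ℚ) else 0) * _ : ℚ) = 0
    rw [if_neg (fun h' => hyz.ne h'.2), zero_mul]
  refine LinearMap.ext fun φ => ?_
  have h2 : f φ = (idem y : RR P) • f φ := by
    rw [simp_smul]
    change f φ = ((if y = y ∧ y = y then (1 : ℚ) else 0) * _ : ℚ)
    rw [if_pos ⟨rfl, rfl⟩, one_mul]
  have h3 : ((idem y : RR P) • φ : sub D ℚ).1 = fun a => if a = y then φ.1 y else 0 := by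
    funext a
    change ∑ b, (if a = y ∧ b = y then (1 : ℚ) else 0) * φ.1 b = _
    rw [Finset.sum_eq_single y]
    · by_cases ha : a = y <;> simp [ha]
    · intro b _ hb
      simp [hb]
    · intro h'
      exact absurd (Finset.mem_univ y) h'
  rw [h2, ← map_smul, LinearMap.zero_apply]
  by_cases hy : y ∈ D
  · have h4 : (idem y : RR P) • φ = (algebraMap ℚ (RR P) (φ.1 y)) • del hy := by
      apply Subtype.ext
      rw [h3]
      funext a
      change _ = ((algebraMap ℚ (RR P) (φ.1 y)) • (del hy).1 : Fn P ℚ) a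
      rw [smul_fn_apply, Finset.sum_eq_single a]
      · change _ = ((φ.1 y • (1 : RR P)) a a) • (if a = y then (1 : ℚ) else 0)
        rw [IncidenceAlgebra.constSMul_apply, IncidenceAlgebra.one_apply, if_pos rfl]
        by_cases ha : a = y <;> simp [ha]
      · intro b _ hb
        change ((φ.1 y • (1 : RR P)) a b) • (if b = y then (1 : ℚ) else 0) = 0
        rw [IncidenceAlgebra.constSMul_apply, IncidenceAlgebra.one_apply, if_neg (Ne.symm hb)]
        simp
      · intro h'
        exact absurd (Finset.mem_univ a) h'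
    rw [h4, map_smul, hdel hy, smul_zero]
  · have h4 : (idem y : RR P) • φ = 0 := by
      apply Subtype.ext
      rw [h3]
      funext a
      split_ifs with ha
      · exact φ.2 y hy
      · rfl
    rw [h4, map_zero]

theorem ext_zero {D : LowerSet P} {y : P} (h : y ∈ D → ∃ z ∈ D, y < z) :
    Subsingleton (Ext (kk D) (SS y) 0) := by
  have h1 : Subsingleton (kk D ⟶ SS y) := by
    refine ⟨fun f g => ?_⟩
    ext1
    rw [hom_zero h f.hom, hom_zero h g.hom]
  exact Ext.homEquiv₀.injective.subsingleton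

theorem ext_nonzero (y : P) : Nontrivial (Ext (kk (LowerSet.Iic y)) (SS y) 0) := by
  let g : sub (LowerSet.Iic y) ℚ →ₗ[RR P] Simp y :=
    { toFun := fun φ => φ.1 y
      map_add' := fun _ _ => rfl
      map_smul' := fun r φ => by
        change ∑ z, r y z • φ.1 z = (r y y * φ.1 y : ℚ)
        rw [Finset.sum_eq_single y]
        · rfl
        · intro z _ hz
          by_cases hxz : y ≤ z
          · rw [φ.2 z (fun h => hz (le_antisymm h hxz)), smul_zero]
          · rw [IncidenceAlgebra.apply_eq_zero_of_not_le hxz, zero_smul]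
        · intro h
          exact absurd (Finset.mem_univ y) h }
  have h1 : Nontrivial (kk (LowerSet.Iic y) ⟶ SS y) := by
    refine ⟨⟨ModuleCat.ofHom g, 0, fun h => ?_⟩⟩
    have h2 := congrArg (fun f : kk (LowerSet.Iic y) ⟶ SS y => f.hom (del (z := y) le_rfl)) h
    change (if y = y then (1 : ℚ) else 0) = 0 at h2
    rw [if_pos rfl] at h2
    exact one_ne_zero h2
  exact Ext.homEquiv₀.symm.injective.nontrivial

theorem ext_Iic (x y : P) (n : ℕ) : Subsingleton (Ext (kk (LowerSet.Iic x)) (SS y) (n + 1)) := by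
  have h1 : HasProjectiveDimensionLT (kk (LowerSet.Iic x)) 1 := pd_Iic x
  exact HasProjectiveDimensionLT.subsingleton _ 1 (n + 1) (by omega) _

theorem ac_Iic {x y : P} (h : x ≠ y) : Ac y (LowerSet.Iic x) := by
  intro n
  cases n with
  | zero => exact ext_zero fun hy => ⟨x, le_rfl, lt_of_le_of_ne hy (Ne.symm h)⟩
  | succ n => exact ext_Iic x y n

/-- The sequence defining the radical of the projective cover. -/
theorem top_exact (x : P) : ∃ S : ShortComplex (ModuleCat.{0} (RR P)),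
    S.ShortExact ∧ S.X₁ = kk (LowerSet.Iio x) ∧ S.X₂ = kk (LowerSet.Iic x) ∧ S.X₃ = SS x := by
  have hle : LowerSet.Iio x ≤ LowerSet.Iic x := fun y (hy : y < x) => le_of_lt hy
  let f : sub (LowerSet.Iio x) ℚ →ₗ[RR P] sub (LowerSet.Iic x) ℚ := incl hle
  let g : sub (LowerSet.Iic x) ℚ →ₗ[RR P] Simp x :=
    { toFun := fun φ => φ.1 x
      map_add' := fun _ _ => rfl
      map_smul' := fun r φ => by
        change ∑ z, r x z • φ.1 z = (r x x * φ.1 x : ℚ)
        rw [Finset.sum_eq_single x]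
        · rfl
        · intro z _ hz
          by_cases hxz : x ≤ z
          · rw [φ.2 z (fun h => hz (le_antisymm h hxz)), smul_zero]
          · rw [IncidenceAlgebra.apply_eq_zero_of_not_le hxz, zero_smul]
        · intro h
          exact absurd (Finset.mem_univ x) h }
  have hex : Function.Exact f g := by
    intro φ
    constructor
    · intro h
      refine ⟨⟨φ.1, fun y hy => ?_⟩, Subtype.ext rfl⟩
      by_cases hyx : y = x
      · rw [hyx]
        exact h
      · exact φ.2 y fun h' => hy (lt_of_le_of_ne h' hyx)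
    · rintro ⟨χ, hχ⟩
      rw [← hχ]
      exact χ.2 x (fun h => lt_irrefl x h)
  have hinj : Function.Injective f := Submodule.inclusion_injective _
  have hsurj : Function.Surjective g := by
    intro q
    refine ⟨⟨fun a => if a = x then q else (0 : ℚ), fun a ha => if_neg fun h => ha (by
      rw [h]; exact le_rfl)⟩, ?_⟩
    change (if x = x then q else (0 : ℚ)) = q
    rw [if_pos rfl]
  let S : ShortComplex (ModuleCat (RR P)) := ShortComplex.mk (ModuleCat.ofHom f) (ModuleCat.ofHom g)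
    (by
      ext1
      exact hex.linearMap_comp_eq_zero)
  exact ⟨S, ModuleCat.shortComplex_shortExact S hex hinj hsurj, rfl, rfl, rfl⟩

theorem top_van {x y : P} (hxy : x ≠ y) (h : Ac y (LowerSet.Iio x)) (n : ℕ) :
    Subsingleton (Ext (SS x) (SS y) n) := by
  obtain ⟨S, hS, e1, e2, e3⟩ := top_exact x
  have h2 := ac_Iic hxy
  rw [Ac, ← e2] at h2
  rw [Ac, ← e1] at h
  rw [← e3]
  cases n with
  | zero => exact van3_zero hS _ (h2 0)
  | succ n => exact van3 hS _ (h n) (h2 _)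

theorem top_non {x y : P} (hxy : x ≠ y) {n : ℕ}
    (h : Nontrivial (Ext (kk (LowerSet.Iio x)) (SS y) n)) :
    Nontrivial (Ext (SS x) (SS y) (n + 1)) := by
  obtain ⟨S, hS, e1, e2, e3⟩ := top_exact x
  have h2 := ac_Iic hxy
  rw [Ac, ← e2] at h2
  rw [← e1] at h
  rw [← e3]
  exact non3 hS _ h (h2 n)

theorem top_pd {x : P} {n : ℕ} (h : HasProjectiveDimensionLT (kk (LowerSet.Iio x)) n)
    (hn : 0 < n) : HasProjectiveDimensionLT (SS x) (n + 1) := by
  obtain ⟨S, hS, e1, e2, e3⟩ := top_exact x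
  have h2 : HasProjectiveDimensionLT (kk (LowerSet.Iic x)) 1 := pd_Iic x
  rw [← e2] at h2
  rw [← e1] at h
  rw [← e3]
  exact hS.hasProjectiveDimensionLT_X₃ n h (hasProjectiveDimensionLT_of_ge _ 1 _ (by omega))

end

end Q4.Frat
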