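import Pool.Agent.Q4.Frat.Grp

/-!
# Invariants of the subgroups
-/

namespace Q4.Frat

/-- The translations in a subgroup. -/
def ww (H : Subgroup GG) : Submodule (ZMod 11) VV where
  carrier := {v | tra v ∈ H}
  add_mem' := by
    intro v w hv hw
    change tra (v + w) ∈ H
    rw [tra_add]
    exact H.mul_mem hv hw
  zero_mem' := H.one_mem
  smul_mem' := by
    intro k v hv
    have h1 : ∀ n : ℕ, tra (n • v) = tra v ^ n := by
      intro n
      induction n with
      | zero => rw [zero_smul, pow_zero, tra_zero]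
      | succ n ih => rw [succ_nsmul, tra_add, ih, pow_succ]
    have h2 : k • v = k.val • v := by
      rw [← Nat.cast_smul_eq_nsmul (ZMod 11), ZMod.natCast_zmod_val]
    change tra (k • v) ∈ H
    rw [h2, h1]
    exact H.pow_mem hv _

theorem mem_ww {H : Subgroup GG} {v : VV} : v ∈ ww H ↔ tra v ∈ H := Iff.rfl

/-- The image in the quaternion group. -/
def cc (H : Subgroup GG) : Subgroup CC := H.map pr

theorem mem_cc {H : Subgroup GG} {c : CC} : c ∈ cc H ↔ ∃ g ∈ H, pr g = c := Subgroup.mem_map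

theorem pr_mem {H : Subgroup GG} {g : GG} (h : g ∈ H) : pr g ∈ cc H := ⟨g, h, rfl⟩

theorem ww_mono {H K : Subgroup GG} (h : H ≤ K) : ww H ≤ ww K := fun _ hv => h hv

theorem cc_mono {H K : Subgroup GG} (h : H ≤ K) : cc H ≤ cc K := Subgroup.map_mono h

theorem ww_inf (H K : Subgroup GG) : ww (H ⊓ K) = ww H ⊓ ww K := rfl

theorem eq_one_of {H : Subgroup GG} (hH : ww H = ⊥) {g : GG} (hg : g ∈ H) (h : pr g = 1) :
    g = 1 := by
  have h1 := eq_tra h
  have h2 : g.v ∈ ww H := by
    rw [mem_ww, ← h1]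
    exact hg
  rw [hH, Submodule.mem_bot] at h2
  rw [h1, h2, tra_zero]

theorem eq_of {x y : Subgroup GG} (h : x ≤ y) (hw : ww y ≤ ww x) (hc : cc y ≤ cc x) : x = y := by
  refine le_antisymm h fun g hg => ?_
  obtain ⟨k, hk, hkg⟩ := mem_cc.1 (hc (pr_mem hg))
  have h1 : pr (k⁻¹ * g) = 1 := by rw [map_mul, map_inv, hkg, inv_mul_cancel]
  have h2 := eq_tra h1
  have h3 : k⁻¹ * g ∈ x := by
    rw [h2]
    refine hw ?_
    rw [mem_ww, ← h2]
    exact y.mul_mem (y.inv_mem (h hk)) hg
  have h4 := x.mul_mem hk h3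
  rwa [mul_inv_cancel_left] at h4

theorem act_mem {H : Subgroup GG} {c : CC} (hc : c ∈ cc H) {v : VV} (hv : v ∈ ww H) :
    act c v ∈ ww H := by
  obtain ⟨g, hg, rfl⟩ := mem_cc.1 hc
  rw [mem_ww]
  have h1 := conj_tra g v
  change tra (act g.c v) ∈ H
  rw [← h1]
  exact H.mul_mem (H.mul_mem hg hv) (H.inv_mem hg)

theorem finrank_VV : Module.finrank (ZMod 11) VV = 2 := by simp [VV]

theorem finrank_le (W : Submodule (ZMod 11) VV) : Module.finrank (ZMod 11) W ≤ 2 :=
  (Submodule.finrank_le W).trans finrank_VV.le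

theorem trich (W : Submodule (ZMod 11) VV) : W = ⊥ ∨ W = ⊤ ∨
    (Module.finrank (ZMod 11) W = 1 ∧ ∃ v : VV, v ≠ 0 ∧ v ∈ W ∧ ∀ w ∈ W, ∃ k : ZMod 11,
      w = k • v) := by
  have h1 := finrank_le W
  interval_cases h : Module.finrank (ZMod 11) W
  · exact Or.inl (Submodule.finrank_eq_zero.1 h)
  · refine Or.inr (Or.inr ⟨rfl, ?_⟩)
    obtain ⟨v, hv, hspan⟩ := finrank_eq_one_iff'.1 h
    refine ⟨v, fun h0 => hv (Subtype.ext h0), v.2, fun w hw => ?_⟩
    obtain ⟨k, hk⟩ := hspan ⟨w, hw⟩
    exact ⟨k, (congrArg Subtype.val hk).symm⟩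
  · exact Or.inr (Or.inl (Submodule.eq_top_of_finrank_eq (h.trans finrank_VV.symm)))

/-- A subgroup that contains one line of translations only. -/
theorem line {H : Subgroup GG} (h0 : ww H ≠ ⊥) (h1 : ww H ≠ ⊤) (c : CC) (hc : c ∈ cc H) :
    c = 1 ∨ c = zz := by
  rcases trich (ww H) with h | h | ⟨_, v, hv0, hv, hspan⟩
  · exact absurd h h0
  · exact absurd h h1
  · obtain ⟨k, hk⟩ := hspan _ (act_mem hc hv)
    apply pow10
    have h2 : ∀ n : ℕ, act (c ^ n) v = k ^ n • v := by
      intro n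
      induction n with
      | zero => rw [pow_zero, pow_zero, act_one, one_smul]
      | succ n ih => rw [pow_succ', act_mul, ih, act_smul, hk, smul_smul, pow_succ]
    have hk0 : k ≠ 0 := by
      rintro rfl
      apply hv0
      rw [zero_smul] at hk
      have h3 := act_mul c⁻¹ c v
      rw [inv_mul_cancel, act_one, hk, act_zero] at h3
      exact h3
    have h4 : act (c ^ 10) v = v := by
      have h5 : k ^ 10 = 1 := by
        have := ZMod.pow_card_sub_one_eq_one hk0
        exact this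
      rw [h2, h5, one_smul]
    by_contra hne
    exact hv0 (act_fix h4 hne)

theorem card_cc_dvd (K : Subgroup CC) : Nat.card K ∣ 24 := by
  rw [← card_CC]
  exact Subgroup.card_subgroup_dvd_card K

/-- Number of prime factors of the divisors of `24`. -/
def om (m : ℕ) : ℕ :=
  if m = 1 then 0 else if m = 2 ∨ m = 3 then 1 else if m = 4 ∨ m = 6 then 2 else
    if m = 8 ∨ m = 12 then 3 else 4

theorem om_lt {m n : ℕ} (hmn : m ∣ n) (hn : n ∣ 24) (h : m ≠ n) : om m < om n := by
  have hn' : n ≤ 24 := Nat.le_of_dvd (by norm_num) hn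
  have hm' : m ≤ n := Nat.le_of_dvd (Nat.pos_of_dvd_of_pos hn (by norm_num)) hmn
  have key : ∀ n < 25, n ∣ 24 → ∀ m < 25, m ∣ n → m ≠ n → om m < om n := by decide
  exact key n (by omega) hn m (by omega) hmn h

theorem om_card_lt {K L : Subgroup CC} (h : K < L) : om (Nat.card K) < om (Nat.card L) := by
  refine om_lt (Subgroup.card_dvd_of_le h.le) (card_cc_dvd L) fun he => ?_
  exact h.ne (Subgroup.eq_of_le_of_card_ge h.le he.ge)

/-- The rank. -/
noncomputable def rk (H : Subgroup GG) : ℕ :=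
  Module.finrank (ZMod 11) (ww H) + om (Nat.card (cc H))

theorem rk_lt {x y : Subgroup GG} (h : x < y) : rk x < rk y := by
  have h1 := Submodule.finrank_mono (ww_mono h.le)
  rcases (cc_mono h.le).eq_or_lt with h2 | h2
  · have h3 : ww x < ww y := by
      refine lt_of_le_of_ne (ww_mono h.le) fun h4 => h.ne ?_
      exact eq_of h.le h4.ge h2.ge
    have h4 := Submodule.finrank_lt_finrank_of_lt h3
    rw [rk, rk, h2]
    omega
  · have h3 := om_card_lt h2
    rw [rk, rk]
    omega

theorem zz_mem_of_even {K : Subgroup CC} (h : 2 ∣ Nat.card K) : zz ∈ K := by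
  obtain ⟨x, hx⟩ := exists_prime_orderOf_dvd_card' 2 h
  have h1 : (x : CC) * x = 1 := by
    have h2 := pow_orderOf_eq_one x
    rw [hx, pow_two] at h2
    exact congrArg Subtype.val h2
  rcases invol _ h1 with h2 | h2
  · exfalso
    have h3 : x = 1 := Subtype.ext h2
    rw [h3, orderOf_one] at hx
    norm_num at hx
  · rw [← h2]
    exact x.2

instance : (Subgroup.zpowers zz).Normal := by
  refine ⟨fun n hn g => ?_⟩
  obtain ⟨k, rfl⟩ := Subgroup.mem_zpowers_iff.1 hn
  have h1 : Commute g (zz ^ k) := (show Commute g zz from zz_central g).zpow_right k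
  rw [h1.eq, mul_inv_cancel_right]
  exact hn

theorem zpowers_zz {c : CC} : c ∈ Subgroup.zpowers zz ↔ c = 1 ∨ c = zz := by
  constructor
  · intro h
    obtain ⟨k, rfl⟩ := Subgroup.mem_zpowers_iff.1 h
    apply invol
    rw [← (Commute.refl zz).mul_zpow, zz_sq, one_zpow]
  · rintro (rfl | rfl)
    · exact Subgroup.one_mem _
    · exact Subgroup.mem_zpowers _

end Q4.Frat
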