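import Pool.Agent.Q4.Frat.Cmp

/-!
# The extension groups `Ext^n(S_H, S_{Φ H})` vanish for `n ≥ 4`
-/

open CategoryTheory Abelian

namespace Q4.Frat

theorem Phi_le {H M : Subgroup GG} (hMH : M < H)
    (hmax : ∀ N, M ≤ N → N ≤ H → N = M ∨ N = H) : Phi H ≤ M := by
  have h1 : IsCoatom (M.subgroupOf H) := by
    refine ⟨fun h => hMH.not_ge (Subgroup.subgroupOf_eq_top.1 h), fun N hN => ?_⟩
    have h2 : M ≤ N.map H.subtype := by
      have h3 := Subgroup.map_mono (f := H.subtype) hN.le
      rwa [Subgroup.subgroupOf_map_subtype, inf_eq_left.2 hMH.le] at h3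
    have h4 : (N.map H.subtype).subgroupOf H = N :=
      Subgroup.comap_map_eq_self_of_injective H.subtype_injective N
    rcases hmax _ h2 (Subgroup.map_subtype_le N) with h | h
    · rw [h] at h4
      exact absurd h4 hN.ne
    · rw [← h4, h, Subgroup.subgroupOf_self]
  refine (Subgroup.map_mono (frattini_le_coatom h1)).trans ?_
  rw [Subgroup.subgroupOf_map_subtype]
  exact inf_le_left

theorem om_card_le {K : Subgroup CC} {m : ℕ} (h : Nat.card K ∣ m) (hm : m ∣ 24) :
    om (Nat.card K) ≤ om m := by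
  by_cases he : Nat.card K = m
  · rw [he]
  · exact (om_lt h hm he).le

theorem card_le_two {K : Subgroup CC} (h : ∀ c ∈ K, c = 1 ∨ c = zz) : Nat.card K ∣ 2 := by
  have h1 : K ≤ ZZ := fun c hc => zpowers_zz.2 (h c hc)
  have h2 := Subgroup.card_dvd_of_le h1
  rw [Nat.card_zpowers] at h2
  refine h2.trans (orderOf_dvd_of_pow_eq_one ?_)
  rw [pow_two, zz_sq]

/-- The projective dimension is at most three for the subgroups of small rank. -/
theorem small {H : Subgroup GG} (h : rk H ≤ 3) : HasProjectiveDimensionLT (SS H) 4 := by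
  refine pd_simple Set.univ (fun _ _ _ _ => trivial) rk (fun _ _ _ _ h => rk_lt h) H 2 ?_
  intro z hz
  exact ⟨z, trivial, le_rfl, hz, by have := rk_lt hz; omega⟩

theorem fr_bot {H : Subgroup GG} (h : ww H = ⊥) : rk H = om (Nat.card (cc H)) := by
  rw [rk, h, finrank_bot, zero_add]

theorem om_pos {K : Subgroup CC} (h : K ≠ ⊥) : 1 ≤ om (Nat.card K) := by
  have h1 := om_card_lt (bot_lt_iff_ne_bot.2 h)
  omega

/-- The complements. -/
theorem compl {H : Subgroup GG} (h : ww H = ⊥) (hc : cc H = ⊤) :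
    HasProjectiveDimensionLT (SS H) 4 := by
  obtain ⟨m, hm, hm1⟩ := mem_cc.1 (show zz ∈ cc H by rw [hc]; exact Subgroup.mem_top _)
  refine pd_simple ({L | m ∈ L} : Set (Subgroup GG)) (fun a ha b hb => Subgroup.mem_inf.2 ⟨ha, hb⟩)
    (fun L => rk L - 1) ?_ H 2 ?_
  · intro a ha b hb hab
    have h1 := rk_lt hab
    have h2 : 1 ≤ rk a := by
      have h3 : 1 ≤ om (Nat.card (cc a)) := by
        apply om_pos
        intro h4
        have h5 : zz ∈ cc a := mem_cc.2 ⟨m, ha, hm1⟩
        rw [h4] at h5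
        exact zz_ne (Subgroup.mem_bot.1 h5)
      rw [rk]
      omega
    change rk a - 1 < rk b - 1
    omega
  · intro z hz
    refine ⟨z ⊔ Subgroup.zpowers m, ?_, le_sup_left, ?_, ?_⟩
    · exact (le_sup_right : _ ≤ z ⊔ Subgroup.zpowers m) (Subgroup.mem_zpowers m)
    · refine lt_of_le_of_ne (sup_le hz.le (Subgroup.zpowers_le.2 hm)) fun he => ?_
      have h1 : cc z < cc H := cc_lt hz (by rw [h]; exact bot_le)
      refine inv_sup h1 (by rw [hc, Subgroup.card_top, card_CC]; norm_num) ?_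
      rw [← he, cc_sup, cc, cc, MonoidHom.map_zpowers, hm1]
    · have h1 : z ⊔ Subgroup.zpowers m < H := by
        refine lt_of_le_of_ne (sup_le hz.le (Subgroup.zpowers_le.2 hm)) fun he => ?_
        have h1 : cc z < cc H := cc_lt hz (by rw [h]; exact bot_le)
        refine inv_sup h1 (by rw [hc, Subgroup.card_top, card_CC]; norm_num) ?_
        rw [← he, cc_sup, cc, cc, MonoidHom.map_zpowers, hm1]
      have h2 := rk_lt h1
      have h3 : rk H = 4 := by
        rw [fr_bot h, hc, Subgroup.card_top, card_CC]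
        rfl
      change rk _ - 1 ≤ 2
      omega

open Classical in
/-- The subgroups `V : K` with `K` of order `6`. -/
theorem six {H : Subgroup GG} (h : ww H = ⊤) (hc : Nat.card (cc H) = 6) :
    HasProjectiveDimensionLT (SS H) 4 := by
  have hbt : (⊥ : Submodule (ZMod 11) VV) ≠ ⊤ := bot_ne_top
  refine pd_simple {L | ww L = ⊥ ∨ ww L = ⊤} ?_
    (fun L => om (Nat.card (cc L)) + if ww L = ⊤ then 1 else 0) ?_ H 2 ?_
  · intro a ha b hb
    change ww (a ⊓ b) = ⊥ ∨ ww (a ⊓ b) = ⊤
    rw [ww_inf]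
    rcases ha with ha | ha <;> rcases hb with hb | hb <;> rw [ha, hb] <;> simp
  · intro a ha b hb hab
    change om _ + (if _ then 1 else 0) < om _ + (if _ then 1 else 0)
    have hm := om_card_le (Subgroup.card_dvd_of_le (cc_mono hab.le)) (card_cc_dvd (cc b))
    rcases ha with ha | ha <;> rcases hb with hb | hb
    · have h1 := om_card_lt (cc_lt hab (by rw [hb]; exact bot_le))
      rw [if_neg (by rw [ha]; exact hbt), if_neg (by rw [hb]; exact hbt)]
      omega
    · rw [if_neg (by rw [ha]; exact hbt), if_pos hb]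
      omega
    · exfalso
      have h1 := ww_mono hab.le
      rw [ha, hb, top_le_iff] at h1
      exact hbt h1
    · have h1 := om_card_lt (cc_lt hab (by rw [ha]; exact le_top))
      rw [if_pos ha, if_pos hb]
      omega
  · intro z hz
    by_cases hb : ww z = ⊥
    · refine ⟨z, Or.inl hb, le_rfl, hz, ?_⟩
      change om _ + (if _ then 1 else 0) ≤ 2
      rw [if_neg (by rw [hb]; exact hbt)]
      have h1 := om_card_le (Subgroup.card_dvd_of_le (cc_mono hz.le)) (card_cc_dvd (cc H))
      rw [hc] at h1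
      exact h1
    · have h2 : cc z ≠ cc H := by
        intro he
        by_cases ht : ww z = ⊤
        · exact hz.ne (eq_of hz.le (by rw [ht]; exact le_top) he.ge)
        · have h3 := card_le_two (line hb ht)
          rw [he, hc] at h3
          norm_num at h3
      refine ⟨up (cc z), Or.inr (ww_up _), le_up z, up_lt h (cc_mono hz.le) h2, ?_⟩
      change om _ + (if _ then 1 else 0) ≤ 2
      rw [if_pos (ww_up _), cc_up]
      have h3 := om_card_lt (lt_of_le_of_ne (cc_mono hz.le) h2)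
      rw [hc] at h3
      have h4 : om 6 = 2 := rfl
      omega

theorem zz_mem_of_four {K : Subgroup CC} (h4 : 4 ∣ Nat.card K) : zz ∈ K :=
  zz_mem_of_even ((show 2 ∣ 4 by norm_num).trans h4)

theorem not_line {H : Subgroup GG} (h4 : 4 ∣ Nat.card (cc H)) : ww H = ⊥ ∨ ww H = ⊤ := by
  by_contra hcon
  push Not at hcon
  have h1 := h4.trans (card_le_two (line hcon.1 hcon.2))
  norm_num at h1

/-- The complements of the translations in `H` are maximal subgroups. -/
theorem Phi_le_of {H M : Subgroup GG} (h : ww H = ⊤) (h4 : 4 ∣ Nat.card (cc H)) (hM : M ≤ H)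
    (h1 : ww M = ⊥) (h2 : cc M = cc H) : Phi H ≤ M := by
  have hbt : (⊥ : Submodule (ZMod 11) VV) ≠ ⊤ := bot_ne_top
  refine Phi_le (lt_of_le_of_ne hM fun he => hbt (by rw [← h1, he, h])) fun N hMN hNH => ?_
  have h3 : cc N = cc H := le_antisymm (cc_mono hNH) (h2 ▸ cc_mono hMN)
  rcases not_line (H := N) (by rw [h3]; exact h4) with h5 | h5
  · left
    exact (eq_of hMN (by rw [h5]; exact bot_le) (by rw [h2, h3])).symm
  · right
    exact eq_of hNH (by rw [h5]; exact le_top) h3.ge

/-- The standard vector. -/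
def v0 : VV := fun _ => 1

theorem v0_ne : v0 ≠ 0 := by
  intro h
  have := congrFun h 0
  exact one_ne_zero this

/-- A conjugate of the embedding. -/
def emb' : CC →* GG := (MulAut.conj (tra v0)).toMonoidHom.comp emb

theorem emb'_apply (c : CC) : emb' c = tra v0 * emb c * (tra v0)⁻¹ := rfl

theorem pr_emb' (c : CC) : pr (emb' c) = c := by
  rw [emb'_apply, map_mul, map_mul, map_inv, pr_tra, pr_emb, one_mul, inv_one, mul_one]

theorem emb_ne (c : CC) (hc : c ≠ 1) : emb c ≠ emb' c := by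
  intro h
  rw [emb'_apply, eq_mul_inv_iff_mul_eq] at h
  exact v0_ne (frob (g := emb c) hc h)

theorem Phi_eq_bot {H : Subgroup GG} (h : ww H = ⊤) (h4 : 4 ∣ Nat.card (cc H)) : Phi H = ⊥ := by
  have key : ∀ f : CC →* GG, (∀ c, pr (f c) = c) → Phi H ≤ (cc H).map f ∧
      ww ((cc H).map f) = ⊥ := by
    intro f hf
    have h1 : ww ((cc H).map f) = ⊥ := by
      rw [eq_bot_iff]
      intro v hv
      obtain ⟨c, _, hc⟩ := Subgroup.mem_map.1 (mem_ww.1 hv)
      have h2 : c = 1 := by rw [← hf c, hc, pr_tra]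
      rw [h2, map_one] at hc
      exact (Submodule.mem_bot _).2 (tra_inj (hc.symm.trans tra_zero.symm))
    refine ⟨Phi_le_of h h4 ?_ h1 ?_, h1⟩
    · rw [eq_up h]
      intro g hg
      obtain ⟨c, hc, rfl⟩ := Subgroup.mem_map.1 hg
      rw [mem_up, hf]
      rw [cc_up] at hc
      exact hc
    · ext c
      rw [mem_cc]
      constructor
      · rintro ⟨g, hg, rfl⟩
        obtain ⟨d, hd, rfl⟩ := Subgroup.mem_map.1 hg
        rw [hf]
        exact hd
      · intro hc
        exact ⟨f c, Subgroup.mem_map_of_mem f hc, hf c⟩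
  obtain ⟨k1, w1⟩ := key emb pr_emb
  obtain ⟨k2, w2⟩ := key emb' pr_emb'
  rw [Subgroup.eq_bot_iff_forall]
  intro x hx
  by_contra hx1
  have hz := zz_mem_of_four h4
  exact emb_ne zz zz_ne (inter w1 w2 (Subgroup.mem_map_of_mem emb hz)
    (Subgroup.mem_map_of_mem emb' hz) (pr_emb zz) (pr_emb' zz) (k1 hx) (k2 hx) hx1)

theorem ac_big {H : Subgroup GG} (h : ww H = ⊤) (h4 : 4 ∣ Nat.card (cc H)) :
    Ac ⊥ (LowerSet.Iio H) := by
  have hzz := zz_mem_of_four h4
  have hZ : ∀ {K : Subgroup CC}, zz ∈ K → ZZ ≤ K := fun h => Subgroup.zpowers_le.2 h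
  refine ac_cone {L | L = ⊥ ∨ up ZZ ≤ L ∨ (ww L = ⊥ ∧ zz ∈ cc L)} ?_ (up ZZ) ?_ ?_ ?_ ?_
  · have key : ∀ a b : Subgroup GG, up ZZ ≤ a → (ww b = ⊥ ∧ zz ∈ cc b) →
        ww (a ⊓ b) = ⊥ ∧ zz ∈ cc (a ⊓ b) := by
      rintro a b ha ⟨hb, hb'⟩
      refine ⟨by rw [ww_inf, hb, inf_bot_eq], ?_⟩
      obtain ⟨m, hm, hm1⟩ := mem_cc.1 hb'
      refine mem_cc.2 ⟨m, ⟨ha ?_, hm⟩, hm1⟩
      rw [mem_up, hm1]
      exact Subgroup.mem_zpowers _
    rintro a ha b hb
    rcases ha with rfl | ha | ha
    · exact Or.inl (bot_inf_eq _)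
    · rcases hb with rfl | hb | hb
      · exact Or.inl (inf_bot_eq _)
      · exact Or.inr (Or.inl (le_inf ha hb))
      · exact Or.inr (Or.inr (key a b ha hb))
    · rcases hb with rfl | hb | hb
      · exact Or.inl (inf_bot_eq _)
      · have := key b a hb ha
        rw [inf_comm] at this
        exact Or.inr (Or.inr this)
      · by_cases hab : a ⊓ b = ⊥
        · exact Or.inl hab
        · obtain ⟨⟨x, hx⟩, hx0⟩ := (Subgroup.ne_bot_iff_exists_ne_one).1 hab
          have hx1 : x ≠ 1 := fun h => hx0 (Subtype.ext h)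
          obtain ⟨m, hm, hm1⟩ := mem_cc.1 ha.2
          obtain ⟨m', hm', hm1'⟩ := mem_cc.1 hb.2
          have h5 := inter ha.1 hb.1 hm hm' hm1 hm1' hx.1 hx.2 hx1
          refine Or.inr (Or.inr ⟨by rw [ww_inf, ha.1, bot_inf_eq], mem_cc.2 ⟨m, ⟨hm, ?_⟩, hm1⟩⟩)
          rw [h5]
          exact hm'
  · intro he
    have h5 : emb zz ∈ up ZZ := Subgroup.mem_zpowers zz
    rw [he, Subgroup.mem_bot] at h5
    exact zz_ne (congrArg GG.c h5)
  · refine up_lt h (hZ hzz) fun he => ?_
    rw [← he] at h4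
    have h5 := h4.trans (card_le_two fun c hc => zpowers_zz.1 hc)
    norm_num at h5
  · rintro x (rfl | hx | hx) hxb
    · exact absurd rfl hxb
    · rw [inf_eq_right.2 hx]
      intro he
      have h5 : emb zz ∈ up ZZ := Subgroup.mem_zpowers zz
      rw [he, Subgroup.mem_bot] at h5
      exact zz_ne (congrArg GG.c h5)
    · intro he
      obtain ⟨m, hm, hm1⟩ := mem_cc.1 hx.2
      have h5 : m ∈ x ⊓ up ZZ := ⟨hm, by
        change pr m ∈ ZZ
        rw [hm1]
        exact Subgroup.mem_zpowers _⟩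
      rw [he, Subgroup.mem_bot] at h5
      rw [h5, map_one] at hm1
      exact zz_ne hm1.symm
  · intro z hz
    have hz' : z < H := hz
    by_cases hc : cc z = cc H
    · refine ⟨z, hz, Or.inr (Or.inr ⟨?_, by rw [hc]; exact hzz⟩), le_rfl⟩
      rcases not_line (H := z) (by rw [hc]; exact h4) with h5 | h5
      · exact h5
      · exact absurd (eq_of hz'.le (by rw [h5]; exact le_top) hc.ge) hz'.ne
    · have hlt : cc z < cc H := lt_of_le_of_ne (cc_mono hz'.le) hc
      refine ⟨up (cc z ⊔ ZZ), up_lt h (sup_le hlt.le (hZ hzz)) (inv_sup hlt h4),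
        Or.inr (Or.inl (up_mono le_sup_right)), (le_up z).trans (up_mono le_sup_left)⟩

theorem dvd_cases : ∀ m < 25, m ∣ 24 → 4 ∣ m ∨ m = 6 ∨ om m ≤ 1 := by decide

/-- The vanishing. -/
theorem upper (n : ℕ) (H : Subgroup GG) (hn : ExtNonzero n H (Phi H)) : n ≤ 3 := by
  by_contra hlt
  have hlt' : 4 ≤ n := by omega
  have key : HasProjectiveDimensionLT (SS H) 4 → False := by
    intro hpd
    have h1 : Subsingleton (Ext (SS H) (SS (Phi H)) n) :=
      HasProjectiveDimensionLT.subsingleton _ 4 n hlt' _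
    exact not_subsingleton_iff_nontrivial.2 hn h1
  rcases trich (ww H) with h | h | ⟨h, hl⟩
  · by_cases hc : cc H = ⊤
    · exact key (compl h hc)
    · refine key (small ?_)
      have h1 := om_card_lt (lt_top_iff_ne_top.2 hc)
      rw [Subgroup.card_top, card_CC] at h1
      have h2 : om 24 = 4 := rfl
      rw [fr_bot h]
      omega
  · rcases dvd_cases _ (Nat.lt_succ_of_le (Nat.le_of_dvd (by norm_num) (card_cc_dvd (cc H))))
      (card_cc_dvd (cc H)) with h1 | h1 | h1
    · have h2 := ac_big h h1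
      have h3 : H ≠ ⊥ := by
        rintro rfl
        have h5 : v0 ∈ ww (⊥ : Subgroup GG) := by rw [h]; exact Submodule.mem_top
        exact v0_ne (tra_inj ((Subgroup.mem_bot.1 h5).trans tra_zero.symm))
      have h4 : Subsingleton (Ext (SS H) (SS (Phi H)) n) := by
        rw [Phi_eq_bot h h1]
        exact top_van h3 h2 n
      exact not_subsingleton_iff_nontrivial.2 hn h4
    · exact key (six h h1)
    · refine key (small ?_)
      have h2 := finrank_le (ww H)
      rw [rk]
      omega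
  · refine key (small ?_)
    have h0 : ww H ≠ ⊥ := by
      intro h0
      rw [h0, finrank_bot] at h
      exact zero_ne_one h
    have h1 : ww H ≠ ⊤ := by
      intro h0
      rw [h0, finrank_top, finrank_VV] at h
      norm_num at h
    have h2 := om_card_le (card_le_two (line h0 h1)) (by norm_num)
    have h3 : om 2 = 1 := rfl
    rw [rk]
    omega

end Q4.Frat
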